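import Pool.Agent.H620.Bdry.Final

/-! The composition of the stages, with general constants. -/

set_option autoImplicit false

namespace Pool.Agent.H620.Gen

open Finset MeasureTheory Filter Topology
open Pool.Agent.H620.Bdry

theorem contraG {P : ℕ → Prop} {l : ℝ} (hl0 : 0 < l) (hl1 : l < 1)
    (hl : Tendsto (fun N : ℕ => (D P N : ℝ) / N) atTop (𝓝 l))
    (hmul : ∀ ε : ℝ, 0 < ε → ∀ L₂ : ℝ,
    ∃ L₀ M : ℝ, L₂ ≤ L₀ ∧ 0 < L₀ ∧ 0 ≤ M ∧ ∀ x : ℝ, 0 < x → L₀ ≤ Real.log x → ∃ κ : ℝ, 0 < κ ∧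
      L₀ ≤ Real.log (κ * x) ∧ Real.log (κ * x) ≤ M ∧
      volume (Dset P x κ) ≤ ENNReal.ofReal (ε * x)) : False := by
  classical
  set ε := min l (1 - l) / 8 with hεd
  have hε : 0 < ε := by
    rw [hεd]
    have : 0 < min l (1 - l) := lt_min hl0 (by linarith)
    positivity
  have hε1 : 8 * ε ≤ l := by
    rw [hεd]; linarith [min_le_left l (1 - l)]
  have hε2 : 8 * ε ≤ 1 - l := by
    rw [hεd]; linarith [min_le_right l (1 - l)]
  obtain ⟨L₀, M, hL2, hL0, hM0, hx⟩ := hmul ε hε 2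
  set K := Real.exp M with hK
  have hK0 : 0 < K := Real.exp_pos _
  set δ := ε / (4 * K) with hδ
  have hδ0 : 0 < δ := by positivity
  -- the density
  have h1 : ∀ᶠ N : ℕ in atTop, |(D P N : ℝ) / N - l| < δ := by
    have := (Metric.tendsto_atTop.1 hl) δ hδ0
    obtain ⟨N₀, hN₀⟩ := this
    filter_upwards [eventually_ge_atTop N₀] with N hN
    have := hN₀ N hN
    rwa [Real.dist_eq] at this
  obtain ⟨N₁, hN₁⟩ := eventually_atTop.1 (h1.and (eventually_ge_atTop 1))
  have hden : ∀ N, N₁ ≤ N → (l - δ) * N ≤ D P N ∧ (D P N : ℝ) ≤ (l + δ) * N := by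
    intro N hN
    obtain ⟨h2, h3⟩ := hN₁ N hN
    have hN0 : (0 : ℝ) < N := by exact_mod_cast h3
    rw [abs_lt] at h2
    constructor
    · have : l - δ ≤ (D P N : ℝ) / N := by linarith
      rwa [le_div_iff₀ hN0] at this
    · have : (D P N : ℝ) / N ≤ l + δ := by linarith
      rwa [div_le_iff₀ hN0] at this
  -- the choice of `x`
  set x := Real.exp L₀ + K * (N₁ + 2) + 4 * K with hxd
  have hx0 : 0 < x := by positivity
  have hxL : L₀ ≤ Real.log x := by
    rw [Real.le_log_iff_exp_le hx0]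
    have : 0 < K * (N₁ + 2) := by positivity
    linarith
  obtain ⟨κ, hκ, hκ1, hκ2, hvol⟩ := hx x hx0 hxL
  have hκx : 0 < κ * x := by positivity
  have hup : κ * x ≤ K := by
    rw [hK]
    rwa [← Real.log_le_iff_le_exp hκx]
  have hlo : 4 < κ * x := by
    have h3 : Real.exp L₀ ≤ κ * x := by rwa [← Real.le_log_iff_exp_le hκx]
    have h4 : Real.exp 2 ≤ Real.exp L₀ := Real.exp_le_exp.2 hL2
    have h5 : (4 : ℝ) < Real.exp 2 := by
      have := Real.exp_one_gt_d9
      have h6 : Real.exp 2 = Real.exp 1 * Real.exp 1 := by rw [← Real.exp_add]; norm_num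
      rw [h6]
      nlinarith
    linarith
  have hκ4 : κ * 4 ≤ 1 := by
    have h3 : κ * (4 * K) ≤ κ * x := by
      apply mul_le_mul_of_nonneg_left _ hκ.le
      rw [hxd]
      have : 0 < K * (N₁ + 2) := by positivity
      have := Real.exp_pos L₀
      linarith
    have h4 : κ * 4 * K ≤ 1 * K := by linarith
    exact le_of_mul_le_mul_right h4 hK0
  obtain ⟨m, hm1, hm2, hm3⟩ := exists_m (P := P) hx0 hκ hε hlo hvol
  have hmx : x ≤ (m : ℝ) / κ := by rw [le_div_iff₀ hκ]; linarith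
  set a := ⌈(m : ℝ) / κ⌉₊ with ha
  set b := ⌊((m : ℝ) + 1) / κ⌋₊ with hb
  have ha1 : (m : ℝ) / κ ≤ a := Nat.le_ceil _
  have ha2 : (a : ℝ) < (m : ℝ) / κ + 1 := Nat.ceil_lt_add_one (by positivity)
  have hb1 : (b : ℝ) ≤ ((m : ℝ) + 1) / κ := Nat.floor_le (by positivity)
  have hb2 : ((m : ℝ) + 1) / κ < b + 1 := Nat.lt_floor_add_one _
  have hdiv : ((m : ℝ) + 1) / κ = (m : ℝ) / κ + 1 / κ := by ring
  have hκ' : 4 ≤ 1 / κ := by rw [le_div_iff₀ hκ]; linarith
  have hba : 1 / κ - 2 ≤ (b : ℝ) - a := by linarith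
  have hab : a ≤ b := by
    have : (a : ℝ) ≤ b := by linarith
    exact_mod_cast this
  have hK1 : 1 ≤ K := by
    rw [hK]
    exact Real.one_le_exp (by positivity)
  have hax : (N₁ : ℝ) + 2 ≤ a := by
    refine le_trans ?_ (hmx.trans ha1)
    rw [hxd]
    have : (N₁ : ℝ) + 2 ≤ K * (N₁ + 2) := by nlinarith [(Nat.cast_nonneg N₁ : (0 : ℝ) ≤ N₁)]
    have := Real.exp_pos L₀
    linarith
  have haN : N₁ + 2 ≤ a := by exact_mod_cast hax
  obtain ⟨da1, da2⟩ := hden (a - 1) (by omega)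
  obtain ⟨db1, db2⟩ := hden (b - 1) (by omega)
  have hDI := D_Ico (P := P) (a := a) (b := b) (by omega) hab
  have hDI' : (D P (b - 1) : ℝ) = D P (a - 1) + (((Finset.Ico a b).filter P).card : ℝ) := by
    exact_mod_cast hDI
  rw [Nat.cast_sub (by omega : 1 ≤ a)] at da1 da2
  rw [Nat.cast_sub (by omega : 1 ≤ b)] at db1 db2
  push_cast at da1 da2 db1 db2
  have hbK : (b : ℝ) ≤ 2 * K / κ := by
    refine hb1.trans ?_
    gcongr
    linarith
  have haK : (a : ℝ) ≤ 2 * K / κ := le_trans (by exact_mod_cast hab) hbK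
  have hδK : δ * (2 * K / κ) = ε / 2 / κ := by
    rw [hδ]; field_simp; norm_num
  have hδa : δ * a ≤ ε / 2 / κ := by
    rw [← hδK]; gcongr
  have hδb : δ * b ≤ ε / 2 / κ := by
    rw [← hδK]; gcongr
  set q := 1 / κ with hq
  have hq0 : 0 < q := by positivity
  have e1 : ε / 2 / κ = ε / 2 * q := by rw [hq]; ring
  have e2 : 2 * ε / κ = 2 * ε * q := by rw [hq]; ring
  rw [e1] at hδa hδb
  rw [e2] at hm3
  by_cases hPm : P m
  · have hG : ((Finset.Ico a b).filter (fun n => ¬ P n)).card = (G P κ m).card := by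
      unfold G
      congr 1
      ext n
      simp [hPm, ha, hb]
    have hsum : ((Finset.Ico a b).filter P).card + ((Finset.Ico a b).filter (fun n => ¬ P n)).card = b - a := by
      rw [Finset.card_filter_add_card_filter_not, Nat.card_Ico]
    have hsum' : (((Finset.Ico a b).filter P).card : ℝ) + (G P κ m).card = (b : ℝ) - a := by
      rw [← hG, ← Nat.cast_sub hab]
      exact_mod_cast hsum
    have h7 : (1 - l) * ((b : ℝ) - a) ≤ 3 * ε * q := by linarith
    have h8 : (1 - l) * (q - 2) ≤ 3 * ε * q := by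
      refine le_trans ?_ h7
      apply mul_le_mul_of_nonneg_left hba (by linarith)
    have h9 : 8 * ε * (q - 2) ≤ 3 * ε * q := by
      refine le_trans ?_ h8
      apply mul_le_mul_of_nonneg_right hε2 (by linarith)
    have h10 : 0 ≤ ε * (q - 4) := mul_nonneg hε.le (by linarith)
    linarith
  · have hG : ((Finset.Ico a b).filter P).card = (G P κ m).card := by
      unfold G
      congr 1
      ext n
      simp [hPm, ha, hb]
    rw [hG] at hDI'
    have h7 : l * ((b : ℝ) - a) ≤ 3 * ε * q := by linarith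
    have h8 : l * (q - 2) ≤ 3 * ε * q := by
      refine le_trans ?_ h7
      apply mul_le_mul_of_nonneg_left hba (by linarith)
    have h9 : 8 * ε * (q - 2) ≤ 3 * ε * q := by
      refine le_trans ?_ h8
      apply mul_le_mul_of_nonneg_right hε1 (by linarith)
    have h10 : 0 ≤ ε * (q - 4) := mul_nonneg hε.le (by linarith)
    linarith


/-- The composition of the stages, with a potential. -/
theorem multiG {P : ℕ → Prop} {L₁ θ θ' : ℝ} (hθ : θ < 1) (hθ' : 0 < θ') (e V : ℝ → ℝ)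
    (he : ∀ L, L₁ ≤ L → 0 ≤ e L) (hV0 : ∀ L, L₁ ≤ L → 0 ≤ V L)
    (hVa : ∀ L L', L₁ ≤ L → L ≤ L' → V L' ≤ V L)
    (hstep : ∀ L L', L₁ ≤ L' → L' ≤ θ * L → L' ≤ L → e L ≤ V L' - V L)
    (htend : Filter.Tendsto V Filter.atTop (nhds 0))
    (hst : ∀ x : ℝ, 0 < x → L₁ ≤ Real.log x → ∃ κ : ℝ, 0 < κ ∧
      θ' * Real.log x ≤ Real.log (κ * x) ∧ Real.log (κ * x) ≤ θ * Real.log x ∧
      volume (Dset P x κ) ≤ ENNReal.ofReal (e (Real.log x) * x)) (ε : ℝ) (hε : 0 < ε) (L₂ : ℝ) :
    ∃ L₀ M : ℝ, L₂ ≤ L₀ ∧ 0 < L₀ ∧ 0 ≤ M ∧ ∀ x : ℝ, 0 < x → L₀ ≤ Real.log x → ∃ κ : ℝ, 0 < κ ∧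
      L₀ ≤ Real.log (κ * x) ∧ Real.log (κ * x) ≤ M ∧
      volume (Dset P x κ) ≤ ENNReal.ofReal (ε * x) := by
  obtain ⟨L₃, hL₃⟩ := (Filter.eventually_atTop.1 (htend.eventually (ge_mem_nhds hε)))
  set L₀ := max (max L₁ L₂) (max L₃ (max 10 (1 / (1 - θ)))) with hL₀
  have g1 : L₁ ≤ L₀ := (le_max_left _ _).trans (le_max_left _ _)
  have g2 : L₂ ≤ L₀ := (le_max_right _ _).trans (le_max_left _ _)
  have g3 : L₃ ≤ L₀ := (le_max_left _ _).trans (le_max_right _ _)
  have g4 : 10 ≤ L₀ := ((le_max_left _ _).trans (le_max_right _ _)).trans (le_max_right _ _)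
  have g5 : 1 / (1 - θ) ≤ L₀ := ((le_max_right _ _).trans (le_max_right _ _)).trans (le_max_right _ _)
  have hL0p : 0 < L₀ := by linarith
  have g6 : 1 ≤ (1 - θ) * L₀ := by
    rw [div_le_iff₀ (by linarith)] at g5
    linarith
  set M := L₀ / θ' + L₀ with hM
  have hM0 : L₀ ≤ M := by
    rw [hM]
    have : 0 < L₀ / θ' := by positivity
    linarith
  have key : ∀ k : ℕ, ∀ x : ℝ, 0 < x → L₀ ≤ Real.log x → Real.log x ≤ k → ∃ κ : ℝ, 0 < κ ∧
      L₀ ≤ Real.log (κ * x) ∧ Real.log (κ * x) ≤ M ∧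
      volume (Dset P x κ) ≤ ENNReal.ofReal ((V L₀ - V (Real.log x)) * x) := by
    intro k
    induction k with
    | zero =>
      intro x hx h1 h2
      push_cast at h2
      linarith
    | succ k ih =>
      intro x hx h1 h2
      have hlp : 0 < Real.log x := by linarith
      rcases le_or_gt (Real.log x) M with h3 | h3
      · refine ⟨1, one_pos, by rwa [one_mul], by rwa [one_mul], ?_⟩
        have : Dset P x 1 = ∅ := by
          ext y
          simp [Dset]
        rw [this]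
        simp
      · obtain ⟨κ, hκ, a1, a2, a3⟩ := hst x hx (by linarith)
        have hκx : 0 < κ * x := mul_pos hκ hx
        have a4 : L₀ ≤ Real.log (κ * x) := by
          refine le_trans ?_ a1
          have h5 : L₀ / θ' ≤ Real.log x := by
            have : L₀ / θ' ≤ M := by rw [hM]; linarith
            linarith
          rw [div_le_iff₀ hθ'] at h5
          linarith
        have a5 : Real.log (κ * x) ≤ Real.log x - 1 := by
          have : (1 - θ) * L₀ ≤ (1 - θ) * Real.log x := mul_le_mul_of_nonneg_left h1 (by linarith)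
          linarith
        obtain ⟨κ', hκ', b1, b2, b3⟩ := ih (κ * x) hκx a4 (by push_cast at h2; linarith)
        refine ⟨κ' * κ, mul_pos hκ' hκ, by rwa [mul_assoc], by rwa [mul_assoc], ?_⟩
        have hcomp := Dset_comp' P x κ κ' (e (Real.log x))
          (V L₀ - V (Real.log (κ * x))) hx.le hκ (he _ (by linarith))
          (by linarith [hVa L₀ _ g1 a4]) a3 b3
        refine hcomp.trans (ENNReal.ofReal_le_ofReal ?_)
        apply mul_le_mul_of_nonneg_right _ hx.le
        linarith [hstep (Real.log x) (Real.log (κ * x)) (by linarith) a2 (by linarith)]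
  refine ⟨L₀, M, g2, hL0p, by linarith, fun x hx h1 => ?_⟩
  obtain ⟨κ, hκ, a1, a2, a3⟩ := key ⌈Real.log x⌉₊ x hx h1 (Nat.le_ceil _)
  refine ⟨κ, hκ, a1, a2, a3.trans (ENNReal.ofReal_le_ofReal ?_)⟩
  apply mul_le_mul_of_nonneg_right _ hx.le
  linarith [hL₃ L₀ g3, hV0 (Real.log x) (g1.trans h1)]

/-- The composition, with the errors `A (log log x) ^ (- 1 - c)`. -/
theorem multiLog {P : ℕ → Prop} {A L₁ θ θ' c : ℝ} (hA : 0 < A) (hL₁ : 10 ≤ L₁) (hc : 0 < c) (hθ0 : 0 < θ)
    (hθ : θ < 1) (hθ' : 0 < θ')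
    (hst : ∀ x : ℝ, 0 < x → L₁ ≤ Real.log x → ∃ κ : ℝ, 0 < κ ∧
      θ' * Real.log x ≤ Real.log (κ * x) ∧ Real.log (κ * x) ≤ θ * Real.log x ∧
      volume (Dset P x κ) ≤ ENNReal.ofReal (A * Real.log (Real.log x) ^ (-(1 + c)) * x))
    (ε : ℝ) (hε : 0 < ε) (L₂ : ℝ) :
    ∃ L₀ M : ℝ, L₂ ≤ L₀ ∧ 0 < L₀ ∧ 0 ≤ M ∧ ∀ x : ℝ, 0 < x → L₀ ≤ Real.log x → ∃ κ : ℝ, 0 < κ ∧
      L₀ ≤ Real.log (κ * x) ∧ Real.log (κ * x) ≤ M ∧
      volume (Dset P x κ) ≤ ENNReal.ofReal (ε * x) := by
  have hlpos : ∀ L, L₁ ≤ L → 1 < Real.log L := by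
    intro L hL
    rw [Real.lt_log_iff_exp_lt (by linarith)]
    have := Real.exp_one_lt_d9
    linarith
  set c₀ := -Real.log θ with hc₀
  have hc₀p : 0 < c₀ := by
    have := Real.log_neg hθ0 hθ
    linarith
  set B := A / (c * c₀) with hB
  have hB0 : 0 < B := by positivity
  have hBA : B * (c * c₀) = A := by rw [hB]; field_simp
  refine multiG (L₁ := L₁) hθ hθ' (fun L => A * Real.log L ^ (-(1 + c)))
    (fun L => B * Real.log L ^ (-c)) ?_ ?_ ?_ ?_ ?_ hst ε hε L₂
  · intro L hL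
    have := hlpos L hL
    positivity
  · intro L hL
    have := hlpos L hL
    positivity
  · intro L L' h1 h2
    have h3 := hlpos L h1
    have h4 := hlpos L' (h1.trans h2)
    apply mul_le_mul_of_nonneg_left _ hB0.le
    apply Real.rpow_le_rpow_of_nonpos (by linarith) _ (by linarith)
    exact Real.log_le_log (by linarith) h2
  · intro L L' h1 h2 h0
    have h3 := hlpos L' h1
    have hLL : L₁ ≤ L := by linarith
    have h4 := hlpos L hLL
    show A * Real.log L ^ (-(1 + c)) ≤ B * Real.log L' ^ (-c) - B * Real.log L ^ (-c)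
    set u := Real.log L with hu
    set v := Real.log L' with hv
    have hv0 : 0 < v := by linarith
    have hu0 : 0 < u := by linarith
    have h5 : v ≤ u - c₀ := by
      have h6 : v ≤ Real.log (θ * L) := Real.log_le_log (by linarith) h2
      rw [Real.log_mul hθ0.ne' (by linarith)] at h6
      linarith
    have h8 : (1 + c * (c₀ / u)) * u ^ (-c) ≤ v ^ (-c) := by
      have e1 : v ^ (-c) = Real.exp (-c * Real.log v) := by
        rw [Real.rpow_def_of_pos hv0]; ring_nf
      have e2 : u ^ (-c) = Real.exp (-c * Real.log u) := by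
        rw [Real.rpow_def_of_pos hu0]; ring_nf
      have e3 : Real.log v ≤ Real.log u - c₀ / u := by
        have h9 : Real.log (v / u) ≤ v / u - 1 := Real.log_le_sub_one_of_pos (by positivity)
        rw [Real.log_div hv0.ne' hu0.ne'] at h9
        have h10 : v / u ≤ 1 - c₀ / u := by
          rw [div_le_iff₀ hu0]
          have : (1 - c₀ / u) * u = u - c₀ := by field_simp
          rw [this]
          exact h5
        linarith
      have e4 : 1 + c * (c₀ / u) ≤ Real.exp (c * (c₀ / u)) := by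
        have := Real.add_one_le_exp (c * (c₀ / u))
        linarith
      rw [e1, e2]
      calc (1 + c * (c₀ / u)) * Real.exp (-c * Real.log u)
          ≤ Real.exp (c * (c₀ / u)) * Real.exp (-c * Real.log u) := by gcongr
        _ = Real.exp (c * (c₀ / u) + -c * Real.log u) := by rw [Real.exp_add]
        _ ≤ Real.exp (-c * Real.log v) := by
            apply Real.exp_le_exp.2
            have := mul_le_mul_of_nonneg_left e3 hc.le
            linarith
    have h11 : u ^ (-(1 + c)) = u⁻¹ * u ^ (-c) := by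
      rw [← Real.rpow_neg_one, ← Real.rpow_add hu0]
      congr 1; ring
    rw [h11]
    have h12 : (1 + c * (c₀ / u)) * u ^ (-c) = u ^ (-c) + c * c₀ * (u⁻¹ * u ^ (-c)) := by
      field_simp
    rw [h12] at h8
    have h13 := mul_le_mul_of_nonneg_left h8 hB0.le
    have h14 : B * (u ^ (-c) + c * c₀ * (u⁻¹ * u ^ (-c))) = B * u ^ (-c) + A * (u⁻¹ * u ^ (-c)) := by
      rw [← hBA]; ring
    rw [h14] at h13
    linarith
  · have h1 : Filter.Tendsto (fun L : ℝ => Real.log L ^ (-c)) Filter.atTop (nhds 0) :=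
      (tendsto_rpow_neg_atTop hc).comp Real.tendsto_log_atTop
    have := h1.const_mul B
    simpa using this

end Pool.Agent.H620.Gen
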