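import Mathlib

/-! Generalised Hasse–Syracuse maps: iteration formula, shifts, sums over blocks. -/

set_option autoImplicit false

namespace Pool.Agent.H620.Gen

open Finset

/-- The map `T n = n / d` if `d ∣ n`, `T n = (m n - r_j) / d` if `n ≡ j` modulo `d`, `0 < j < d`. -/
def T (d m : ℕ) (r : ℤ → ℤ) (n : ℤ) : ℤ :=
  if (d : ℤ) ∣ n then n / d else (m * n - r (n % d)) / d

/-- The conditions on the data. -/
structure Adm (d m : ℕ) (r : ℤ → ℤ) : Prop where
  hd : 2 ≤ d
  hm : 2 ≤ m
  hc : Nat.Coprime m d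
  hr : ∀ j : ℤ, 0 < j → j < (d : ℤ) → r j ≡ (m : ℤ) * j [ZMOD (d : ℤ)]

/-- The number of the terms not divisible by `d` among the first `t` terms of the trajectory of `n`. -/
noncomputable def nz (d m : ℕ) (r : ℤ → ℤ) : ℕ → ℤ → ℕ
  | 0, _ => 0
  | t + 1, n => nz d m r t n + (if (d : ℤ) ∣ (T d m r)^[t] n then 0 else 1)

/-- One step of the offset. -/
noncomputable def step (d m : ℕ) (r : ℤ → ℤ) (i : ℤ) (o : ℝ) : ℝ :=
  if (d : ℤ) ∣ i then o / d else (m * o - r (i % d)) / d

/-- The offset after `t` steps. -/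
noncomputable def off (d m : ℕ) (r : ℤ → ℤ) : ℕ → ℤ → ℝ
  | 0, _ => 0
  | t + 1, n => step d m r ((T d m r)^[t] n) (off d m r t n)

variable {d m : ℕ} {r : ℤ → ℤ}

theorem T_mul (h : Adm d m r) (n : ℤ) :
    (d : ℤ) * T d m r n = if (d : ℤ) ∣ n then n else m * n - r (n % d) := by
  have hd0 : (0 : ℤ) < d := by exact_mod_cast (by have := h.hd; omega : 0 < d)
  unfold T
  split_ifs with hn
  · exact Int.mul_ediv_cancel' hn
  · apply Int.mul_ediv_cancel'
    have h1 := Int.emod_nonneg n hd0.ne'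
    have h2 := Int.emod_lt_of_pos n hd0
    have h3 : n % d ≠ 0 := fun h => hn (Int.dvd_of_emod_eq_zero h)
    have h4 := (h.hr (n % d) (by omega) h2).dvd
    have h5 : (d : ℤ) ∣ m * (n - n % d) := Dvd.dvd.mul_left (Int.dvd_self_sub_emod) _
    have h6 := dvd_add h4 h5
    have h7 : (m : ℤ) * (n % d) - r (n % d) + m * (n - n % d) = m * n - r (n % d) := by ring
    rwa [h7] at h6

theorem T_iter_formula (h : Adm d m r) (t : ℕ) (n : ℤ) :
    (((T d m r)^[t] n : ℤ) : ℝ) = (m : ℝ) ^ (nz d m r t n) / (d : ℝ) ^ t * n + off d m r t n := by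
  have hd0 : (0 : ℝ) < d := by exact_mod_cast (by have := h.hd; omega : 0 < d)
  induction t with
  | zero => simp [nz, off]
  | succ t ih =>
    rw [Function.iterate_succ_apply']
    set z := (T d m r)^[t] n with hz
    have h1 := T_mul h z
    have h2 : (d : ℝ) * ((T d m r z : ℤ) : ℝ) = if (d : ℤ) ∣ z then (z : ℝ) else m * z - r (z % d) := by
      split_ifs at h1 ⊢ with hc
      · exact_mod_cast h1
      · exact_mod_cast h1
    have h3 : ((T d m r z : ℤ) : ℝ) = (if (d : ℤ) ∣ z then (z : ℝ) else m * z - r (z % d)) / d := by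
      rw [← h2]; field_simp
    rw [h3]
    show _ = (m : ℝ) ^ (nz d m r t n + (if (d : ℤ) ∣ (T d m r)^[t] n then 0 else 1)) / (d : ℝ) ^ (t + 1) * n +
      step d m r ((T d m r)^[t] n) (off d m r t n)
    unfold step
    rw [← hz]
    split_ifs with hc
    · rw [ih, add_zero, pow_succ]
      field_simp
    · rw [ih, pow_succ, pow_succ]
      field_simp
      ring

theorem T_add (h : Adm d m r) (n k : ℤ) :
    T d m r (n + d * k) = T d m r n + (if (d : ℤ) ∣ n then 1 else (m : ℤ)) * k := by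
  have hd0 : (0 : ℤ) < d := by exact_mod_cast (by have := h.hd; omega : 0 < d)
  have h1 := T_mul h n
  have h2 := T_mul h (n + d * k)
  have hdv : (d : ℤ) ∣ n + d * k ↔ (d : ℤ) ∣ n := by
    rw [Int.dvd_add_left (Dvd.intro k rfl)]
  have hmod : (n + d * k) % d = n % d := by
    rw [Int.add_mul_emod_self_left]
  rw [hmod] at h2
  apply mul_left_cancel₀ hd0.ne'
  have h3 : (d : ℤ) * (T d m r n + (if (d : ℤ) ∣ n then 1 else (m : ℤ)) * k) =
      d * T d m r n + d * ((if (d : ℤ) ∣ n then 1 else (m : ℤ)) * k) := mul_add _ _ _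
  rw [h2, h3, h1]
  by_cases hc : (d : ℤ) ∣ n
  · rw [if_pos (hdv.2 hc), if_pos hc, if_pos hc]; ring
  · rw [if_neg (fun h => hc (hdv.1 h)), if_neg hc, if_neg hc]; ring

theorem shift (h : Adm d m r) (t : ℕ) (n q : ℤ) :
    (T d m r)^[t] (n + d ^ t * q) = (T d m r)^[t] n + m ^ (nz d m r t n) * q ∧
      nz d m r t (n + d ^ t * q) = nz d m r t n ∧ off d m r t (n + d ^ t * q) = off d m r t n := by
  induction t generalizing q with
  | zero => simp [nz, off]
  | succ t ih =>
    obtain ⟨h1, h2, h3⟩ := ih (d * q)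
    have e : n + (d : ℤ) ^ (t + 1) * q = n + (d : ℤ) ^ t * (d * q) := by ring
    rw [e]
    set z := (T d m r)^[t] n with hz
    have h4 : z + (m : ℤ) ^ (nz d m r t n) * (d * q) = z + d * ((m : ℤ) ^ (nz d m r t n) * q) := by ring
    have hdv : (d : ℤ) ∣ z + d * ((m : ℤ) ^ (nz d m r t n) * q) ↔ (d : ℤ) ∣ z := by
      rw [Int.dvd_add_left (Dvd.intro _ rfl)]
    have hmod : (z + d * ((m : ℤ) ^ (nz d m r t n) * q)) % d = z % d := by
      rw [Int.add_mul_emod_self_left]
    refine ⟨?_, ?_, ?_⟩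
    · rw [Function.iterate_succ_apply', Function.iterate_succ_apply', h1, h4, T_add h, ← hz]
      show _ = _ + (m : ℤ) ^ (nz d m r t n + (if (d : ℤ) ∣ (T d m r)^[t] n then 0 else 1)) * q
      rw [← hz]
      split_ifs with hc
      · rw [add_zero]; ring
      · rw [pow_succ]; ring
    · show nz d m r t (n + (d : ℤ) ^ t * (d * q)) +
        (if (d : ℤ) ∣ (T d m r)^[t] (n + (d : ℤ) ^ t * (d * q)) then 0 else 1) =
        nz d m r t n + (if (d : ℤ) ∣ (T d m r)^[t] n then 0 else 1)
      rw [h1, h2, h4, ← hz]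
      simp only [hdv]
    · show step d m r ((T d m r)^[t] (n + (d : ℤ) ^ t * (d * q))) (off d m r t (n + (d : ℤ) ^ t * (d * q))) =
        step d m r ((T d m r)^[t] n) (off d m r t n)
      rw [h1, h3, h4, ← hz]
      unfold step
      rw [hmod]
      simp only [hdv]

/-- Earlier quantities do not change under the shift. -/
theorem shift' (h : Adm d m r) {t u : ℕ} (htu : u ≤ t) (n q : ℤ) :
    nz d m r u (n + d ^ t * q) = nz d m r u n ∧ off d m r u (n + d ^ t * q) = off d m r u n := by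
  have e : (d : ℤ) ^ t * q = (d : ℤ) ^ u * ((d : ℤ) ^ (t - u) * q) := by
    rw [← mul_assoc, ← pow_add, Nat.add_sub_cancel' htu]
  rw [e]
  exact (shift h u n _).2

/-- A full set of residues. -/
theorem sum_residues (hd : 0 < d) (A M : ℤ) (hM : IsCoprime M (d : ℤ)) (g : ℤ → ℝ) :
    ∑ j ∈ range d, g ((A + M * j) % d) = ∑ i ∈ range d, g i := by
  have hd0 : (0 : ℤ) < d := by exact_mod_cast hd
  have key : ∀ j ∈ range d, (fun j : ℕ => ((A + M * j) % d).toNat) j ∈ range d := by
    intro j _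
    rw [mem_range]
    have h1 := Int.emod_nonneg (A + M * j) hd0.ne'
    have h2 := Int.emod_lt_of_pos (A + M * j) hd0
    show ((A + M * j) % d).toNat < d
    omega
  have hinj : Set.InjOn (fun j : ℕ => ((A + M * j) % d).toNat) (range d) := by
    intro j hj j' hj' hjj
    rw [coe_range, Set.mem_Iio] at hj hj'
    have h1 := Int.emod_nonneg (A + M * j) hd0.ne'
    have h1' := Int.emod_nonneg (A + M * j') hd0.ne'
    have h2 : (A + M * j) % d = (A + M * j') % d := by
      have : ((A + M * j) % d).toNat = ((A + M * j') % d).toNat := hjj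
      omega
    have h3 : (d : ℤ) ∣ (A + M * j) - (A + M * j') := Int.ModEq.dvd (Int.ModEq.symm h2)
    have h4 : (d : ℤ) ∣ M * ((j : ℤ) - j') := by
      have : (A + M * j) - (A + M * j') = M * ((j : ℤ) - j') := by ring
      rwa [this] at h3
    have h5 : (d : ℤ) ∣ (j : ℤ) - j' := hM.symm.dvd_of_dvd_mul_left h4
    have h6 : |(j : ℤ) - j'| < d := by
      rw [abs_lt]; constructor <;> omega
    have h7 := Int.eq_zero_of_abs_lt_dvd h5 h6
    omega
  have himg : (range d).image (fun j : ℕ => ((A + M * j) % d).toNat) = range d := by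
    apply Finset.eq_of_subset_of_card_le
    · intro i hi
      rw [mem_image] at hi
      obtain ⟨j, hj, rfl⟩ := hi
      exact key j hj
    · rw [card_image_of_injOn hinj]
  have e1 : ∑ i ∈ range d, g i = ∑ i ∈ (range d).image (fun j : ℕ => ((A + M * j) % d).toNat), g i := by
    rw [himg]
  rw [e1, sum_image hinj]
  apply sum_congr rfl
  intro j _
  have h1 := Int.emod_nonneg (A + M * j) hd0.ne'
  show g ((A + M * j) % d) = g (((((A + M * j) % d).toNat : ℕ) : ℤ))
  rw [Int.toNat_of_nonneg h1]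

/-- The sum over a block, split into blocks. -/
theorem block_split (t c : ℕ) (Φ : ℕ → ℝ) :
    ∑ n ∈ Ico c (c + d ^ (t + 1)), Φ n = ∑ n ∈ Ico c (c + d ^ t), ∑ j ∈ range d, Φ (n + d ^ t * j) := by
  rw [sum_comm]
  have key : ∀ k : ℕ, ∑ n ∈ Ico c (c + d ^ t * k), Φ n =
      ∑ j ∈ range k, ∑ n ∈ Ico c (c + d ^ t), Φ (n + d ^ t * j) := by
    intro k
    induction k with
    | zero => simp
    | succ k ih =>
      rw [sum_range_succ, ← ih]
      have e : c + d ^ t * (k + 1) = c + d ^ t * k + d ^ t := by ring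
      rw [e, ← sum_Ico_consecutive Φ (Nat.le_add_right c _) (Nat.le_add_right _ (d ^ t))]
      congr 1
      have := Finset.sum_Ico_add' Φ c (c + d ^ t) (d ^ t * k)
      rw [this]
      apply sum_congr _ (fun _ _ => rfl)
      congr 1
      ring
  have := key d
  rwa [← pow_succ] at this

/-- The values at the next time in a class: function of the state. -/
theorem class_sum (h : Adm d m r) (t : ℕ) (n : ℤ) (F : ℕ → ℝ → ℝ) :
    ∑ j ∈ range d, F (nz d m r (t + 1) (n + d ^ t * j)) (off d m r (t + 1) (n + d ^ t * j)) =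
      F (nz d m r t n) (off d m r t n / d) +
        ∑ i ∈ Ico 1 d, F (nz d m r t n + 1) ((m * off d m r t n - r i) / d) := by
  have hd2 := h.hd
  have hd0 : (0 : ℤ) < d := by exact_mod_cast (by omega : 0 < d)
  set z := (T d m r)^[t] n with hz
  set a := nz d m r t n with ha
  set o := off d m r t n with ho
  have hcop : IsCoprime ((m : ℤ) ^ a) (d : ℤ) := (Nat.isCoprime_iff_coprime.2 h.hc).pow_left
  set g : ℤ → ℝ := fun i => if i = 0 then F a (o / d) else F (a + 1) ((m * o - r i) / d) with hg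
  have h1 : ∀ j ∈ range d, F (nz d m r (t + 1) (n + d ^ t * j)) (off d m r (t + 1) (n + d ^ t * j)) =
      g ((z + m ^ a * j) % d) := by
    intro j _
    obtain ⟨s1, s2, s3⟩ := shift h t n j
    show F (nz d m r t (n + d ^ t * j) + (if (d : ℤ) ∣ (T d m r)^[t] (n + d ^ t * j) then 0 else 1))
      (step d m r ((T d m r)^[t] (n + d ^ t * j)) (off d m r t (n + d ^ t * j))) = _
    rw [s1, s2, s3, ← hz, ← ha, ← ho, hg]
    unfold step
    have hiff : (d : ℤ) ∣ z + m ^ a * j ↔ (z + (m : ℤ) ^ a * j) % d = 0 := Int.dvd_iff_emod_eq_zero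
    by_cases hc : (d : ℤ) ∣ z + m ^ a * j
    · simp only [if_pos hc, if_pos (hiff.1 hc), add_zero]
    · simp only [if_neg hc, if_neg (fun h => hc (hiff.2 h))]
  rw [sum_congr rfl h1, sum_residues (by omega) z _ hcop g, range_eq_Ico, sum_eq_sum_Ico_succ_bot (by omega)]
  have e0 : g ((0 : ℕ) : ℤ) = F a (o / d) := by simp [hg]
  rw [e0]
  congr 1
  apply sum_congr rfl
  intro i hi
  rw [mem_Ico] at hi
  have : ((i : ℕ) : ℤ) ≠ 0 := by exact_mod_cast (by omega : i ≠ 0)
  rw [hg]
  simp only [if_neg this]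

/-- The block step. -/
theorem block_step (h : Adm d m r) (F : ℕ → ℝ → ℝ) (t c : ℕ) :
    ∑ n ∈ Ico c (c + d ^ (t + 1)), F (nz d m r (t + 1) n) (off d m r (t + 1) n) =
      ∑ n ∈ Ico c (c + d ^ t), (F (nz d m r t n) (off d m r t n / d) +
        ∑ i ∈ Ico 1 d, F (nz d m r t n + 1) ((m * off d m r t n - r i) / d)) := by
  rw [block_split t c (fun n => F (nz d m r (t + 1) n) (off d m r (t + 1) n))]
  apply sum_congr rfl
  intro n _
  rw [← class_sum h t n F]
  apply sum_congr rfl
  intro j _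
  push_cast
  rfl

end Pool.Agent.H620.Gen
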