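import Pool.Agent.H620.Gen.Thin
import Pool.Graph.R_seed8.W39.MolDens

/-! Invariant sets of Möller maps on each side of `0`: the boundary is not thin. -/

set_option autoImplicit false

namespace Pool.Agent.H620.Gen

open Finset Filter Topology
open Pool.Agent.H620.Bdry (cb D)
open Pool.Agent.W39 (TM HasDens dens_pos)

variable {d m : ℕ} {r : ℤ → ℤ}

/-- The data of the conjugated map. -/
def rs (d : ℕ) (s : ℤ) (r : ℤ → ℤ) (j : ℤ) : ℤ := s * r ((s * j) % d)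

theorem rs_adm (h : Adm d m r) {s : ℤ} (hs : s = 1 ∨ s = -1) : Adm d m (rs d s r) := by
  have hd0 : (0 : ℤ) < d := by exact_mod_cast (by have := h.hd; omega : 0 < d)
  refine ⟨h.hd, h.hm, h.hc, fun j h1 h2 => ?_⟩
  unfold rs
  rcases hs with rfl | rfl
  · rw [one_mul, one_mul, Int.emod_eq_of_lt h1.le h2]
    exact h.hr j h1 h2
  · have e : (-1 * j) % (d : ℤ) = d - j := by
      have h3 : (-1 * j) % (d : ℤ) = (d - j) % d := by
        have : (d : ℤ) - j = -1 * j + d := by ring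
        rw [this, Int.add_emod_right]
      rw [h3, Int.emod_eq_of_lt (by omega) (by omega)]
    rw [e]
    have h4 := h.hr (d - j) (by omega) (by omega)
    have h5 : -1 * r (d - j) ≡ -1 * ((m : ℤ) * (d - j)) [ZMOD d] := h4.mul_left _
    refine h5.trans ?_
    have h6 : -1 * ((m : ℤ) * (d - j)) = m * j + d * (-m) := by ring
    rw [h6]
    exact (Int.modEq_iff_dvd.2 ⟨m, by ring⟩)

theorem T_side (h : Adm d m r) {s : ℤ} (hs : s = 1 ∨ s = -1) (x : ℤ) :
    s * T d m (rs d s r) x = T d m r (s * x) := by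
  have hd0 : (0 : ℤ) < d := by exact_mod_cast (by have := h.hd; omega : 0 < d)
  have hss : s * s = 1 := by rcases hs with rfl | rfl <;> norm_num
  have e1 := T_mul (rs_adm h hs) x
  have e2 := T_mul h (s * x)
  apply mul_left_cancel₀ hd0.ne'
  rw [e2, mul_left_comm, e1]
  have hiff : (d : ℤ) ∣ s * x ↔ (d : ℤ) ∣ x := by
    rcases hs with rfl | rfl
    · rw [one_mul]
    · rw [neg_one_mul, dvd_neg]
  by_cases hx : (d : ℤ) ∣ x
  · rw [if_pos hx, if_pos (hiff.2 hx)]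
  · rw [if_neg hx, if_neg (fun g => hx (hiff.1 g))]
    unfold rs
    have e3 : (s * (x % d)) % (d : ℤ) = (s * x) % d := by
      rw [Int.mul_emod, Int.emod_emod, ← Int.mul_emod]
    rw [e3, mul_sub, ← mul_assoc s s, hss]
    ring

theorem TM_eq_T : TM d m r = T d m r := rfl

/-- The boundary of an invariant set is not thin, on each side where both the set and its complement have points
which are infinitely often on this side. -/
theorem mol_not_thin (hd : 2 ≤ d) (hm : 2 ≤ m) (hc : Nat.Coprime m d)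
    (hle : (m : ℝ) ≤ (d : ℝ) ^ ((d : ℝ) / ((d : ℝ) - 1)))
    (hr : ∀ j : ℤ, 0 < j → j < (d : ℤ) → r j ≡ (m : ℤ) * j [ZMOD (d : ℤ)]) {s : ℤ} (hs : s = 1 ∨ s = -1)
    {S : Set ℤ} (hS : ∀ x : ℤ, x ∈ S ↔ T d m r x ∈ S)
    (h1 : ∃ x ∈ S, (∀ k : ℕ, (T d m r)^[k] x ≠ 0) ∧ ∀ k₀ : ℕ, ∃ k, k₀ ≤ k ∧ 0 < s * (T d m r)^[k] x)
    (h2 : ∃ x ∉ S, (∀ k : ℕ, (T d m r)^[k] x ≠ 0) ∧ ∀ k₀ : ℕ, ∃ k, k₀ ≤ k ∧ 0 < s * (T d m r)^[k] x)
    {A : ℝ} (hA : 1 < A) (K : ℝ)
    (h : ∀ᶠ N : ℕ in atTop, (cb (fun n : ℕ => s * (n : ℤ) ∈ S) N : ℝ) ≤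
      K * (N / (√(Real.log N) * Real.log (Real.log N) ^ A))) : False := by
  have hadm : Adm d m r := ⟨hd, hm, hc, hr⟩
  have hss : s * s = 1 := by rcases hs with rfl | rfl <;> norm_num
  obtain ⟨x, hx, hx0, hxs⟩ := h1
  obtain ⟨y, hy, hy0, hys⟩ := h2
  obtain ⟨l, hl0, hl⟩ := dens_pos hd hm hc hle hr hS hx hx0 hs hxs
  obtain ⟨l', hl0', hl'⟩ := dens_pos hd hm hc hle hr (S := Sᶜ) (fun x => not_congr (hS x)) hy hy0 hs hys
  -- the set on the side `s` as a set of natural numbers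
  have hcard : ∀ (S : Set ℤ) (N : ℕ), Set.ncard {x : ℤ | x ∈ S ∧ 1 ≤ s * x ∧ s * x ≤ N} =
      D (fun n : ℕ => s * (n : ℤ) ∈ S) N := by
    intro S N
    unfold D
    have : {x : ℤ | x ∈ S ∧ 1 ≤ s * x ∧ s * x ≤ N} =
        (fun n : ℕ => s * (n : ℤ)) '' {n : ℕ | 1 ≤ n ∧ n ≤ N ∧ s * (n : ℤ) ∈ S} := by
      ext x
      simp only [Set.mem_ofPred_eq, Set.mem_image]
      constructor
      · rintro ⟨g3, g1, g2⟩
        have e : ((s * x).toNat : ℤ) = s * x := Int.toNat_of_nonneg (by omega)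
        have e2 : s * ((s * x).toNat : ℤ) = x := by rw [e, ← mul_assoc, hss, one_mul]
        refine ⟨(s * x).toNat, ⟨by omega, by omega, ?_⟩, e2⟩
        rw [e2]; exact g3
      · rintro ⟨n, ⟨g1, g2, g3⟩, rfl⟩
        have e : s * (s * (n : ℤ)) = n := by rw [← mul_assoc, hss, one_mul]
        refine ⟨g3, by rw [e]; exact_mod_cast g1, by rw [e]; exact_mod_cast g2⟩
    rw [this, Set.ncard_image_of_injective]
    intro x y hxy
    have h3 : s * (s * (x : ℤ)) = s * (s * (y : ℤ)) := by simp only at hxy; rw [hxy]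
    rw [← mul_assoc, ← mul_assoc, hss, one_mul, one_mul] at h3
    exact_mod_cast h3
  have hD : Tendsto (fun N : ℕ => (D (fun n : ℕ => s * (n : ℤ) ∈ S) N : ℝ) / N) atTop (𝓝 l) :=
    hl.congr fun N => by rw [hcard]
  have hD' : Tendsto (fun N : ℕ => (D (fun n : ℕ => s * (n : ℤ) ∈ Sᶜ) N : ℝ) / N) atTop (𝓝 l') :=
    hl'.congr fun N => by rw [hcard]
  have hsum : ∀ N : ℕ, 0 < N → (D (fun n : ℕ => s * (n : ℤ) ∈ S) N : ℝ) / N +
      (D (fun n : ℕ => s * (n : ℤ) ∈ Sᶜ) N : ℝ) / N = 1 := by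
    intro N hN
    have hN' : (N : ℝ) ≠ 0 := by exact_mod_cast hN.ne'
    rw [← add_div, div_eq_one_iff_eq hN']
    have : D (fun n : ℕ => s * (n : ℤ) ∈ S) N + D (fun n : ℕ => s * (n : ℤ) ∈ Sᶜ) N = N := by
      classical
      unfold D
      have f1 : {n : ℕ | 1 ≤ n ∧ n ≤ N ∧ s * (n : ℤ) ∈ S} =
          ↑((Icc 1 N).filter (fun n : ℕ => s * (n : ℤ) ∈ S)) := by
        ext n; simp [and_assoc]
      have f2 : {n : ℕ | 1 ≤ n ∧ n ≤ N ∧ s * (n : ℤ) ∈ Sᶜ} =
          ↑((Icc 1 N).filter (fun n : ℕ => ¬ (s * (n : ℤ) ∈ S))) := by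
        ext n; simp [and_assoc]
      rw [f1, f2, Set.ncard_coe_finset, Set.ncard_coe_finset, Finset.card_filter_add_card_filter_not]
      simp
    exact_mod_cast this
  have hll : l + l' = 1 := by
    apply tendsto_nhds_unique (hD.add hD')
    apply tendsto_const_nhds.congr'
    filter_upwards [eventually_gt_atTop 0] with N hN
    exact (hsum N hN).symm
  have hcon : m ^ (d - 1) < d ^ d := by
    refine lt_of_le_of_ne (Pool.Agent.H319R2.Moller.pow_le_of_rpow (d := d) (m := m) hd hle) ?_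
    intro h4
    have h5 : Nat.Coprime (m ^ (d - 1)) (d ^ d) := Nat.Coprime.pow _ _ hc
    rw [h4, Nat.coprime_self] at h5
    have : 1 < d ^ d := Nat.one_lt_pow (by omega) (by omega)
    omega
  have hQ : ∀ x : ℤ, s * x ∈ S ↔ s * T d m (rs d s r) x ∈ S := by
    intro x
    rw [T_side hadm hs]
    exact hS _
  exact not_thin (rs_adm hadm hs) hcon (Q := fun x => s * x ∈ S) hQ hl0 (by linarith) hD hA K h

end Pool.Agent.H620.Gen
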