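import Pool.Agent.H620.Gen.Map

/-! Moments of the offsets, returns of the offsets to bounded values, large deviations of the numbers of steps. -/

set_option autoImplicit false

namespace Pool.Agent.H620.Gen

open Finset

variable {d m : ℕ} {r : ℤ → ℤ}

theorem abs_rpow_add {p a b : ℝ} (hp0 : 0 ≤ p) (hp1 : p ≤ 1) : |a + b| ^ p ≤ |a| ^ p + |b| ^ p := by
  have h1 : |a + b| ^ p ≤ (|a| + |b|) ^ p := Real.rpow_le_rpow (abs_nonneg _) (abs_add_le _ _) hp0
  refine h1.trans ?_
  have := NNReal.rpow_add_le_add_rpow ⟨|a|, abs_nonneg a⟩ ⟨|b|, abs_nonneg b⟩ hp0 hp1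
  exact_mod_cast this

/-- The contraction constant. -/
noncomputable def cst (d m : ℕ) (p : ℝ) : ℝ := (d : ℝ) ^ (-p) + ((d : ℝ) - 1) * ((m : ℝ) / d) ^ p

/-- The additive constant. -/
noncomputable def KK (d : ℕ) (r : ℤ → ℤ) (p : ℝ) : ℝ := ∑ i ∈ Ico 1 d, |(r i : ℝ) / d| ^ p

theorem KK_nonneg (d : ℕ) (r : ℤ → ℤ) (p : ℝ) : 0 ≤ KK d r p :=
  sum_nonneg fun _ _ => Real.rpow_nonneg (abs_nonneg _) _

theorem cst_pos (hd : 2 ≤ d) (p : ℝ) : 0 < cst d m p := by
  have h0 : (2 : ℝ) ≤ d := by exact_mod_cast hd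
  have h1 : 0 < (d : ℝ) ^ (-p) := Real.rpow_pos_of_pos (by linarith) _
  have h2 : 0 ≤ ((d : ℝ) - 1) * ((m : ℝ) / d) ^ p :=
    mul_nonneg (by linarith) (Real.rpow_nonneg (by positivity) _)
  unfold cst
  linarith

theorem step_bound (hd : 2 ≤ d) {p : ℝ} (hp0 : 0 ≤ p) (hp1 : p ≤ 1) (o : ℝ) :
    |o / d| ^ p + ∑ i ∈ Ico 1 d, |(m * o - r i) / d| ^ p ≤ cst d m p * |o| ^ p + KK d r p := by
  have hd0 : (0 : ℝ) < d := by exact_mod_cast (by omega : 0 < d)
  have h1 : |o / d| ^ p = (d : ℝ) ^ (-p) * |o| ^ p := by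
    rw [abs_div, abs_of_pos hd0, Real.div_rpow (abs_nonneg _) hd0.le, Real.rpow_neg hd0.le]
    field_simp
  have h2 : ∀ i ∈ Ico 1 d, |(m * o - r i) / d| ^ p ≤ ((m : ℝ) / d) ^ p * |o| ^ p + |(r i : ℝ) / d| ^ p := by
    intro i _
    have e : (m * o - r i) / d = (m : ℝ) / d * o + (-((r i : ℝ) / d)) := by ring
    rw [e]
    refine (abs_rpow_add hp0 hp1).trans ?_
    rw [abs_neg, abs_mul, abs_of_nonneg (by positivity : (0 : ℝ) ≤ (m : ℝ) / d),
      Real.mul_rpow (by positivity) (abs_nonneg _)]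
  have h3 := sum_le_sum h2
  rw [sum_add_distrib, sum_const, Nat.card_Ico, nsmul_eq_mul, Nat.cast_sub (by omega)] at h3
  unfold cst KK
  rw [h1]
  push_cast at h3
  nlinarith

/-- The mean value of the power of the offset is bounded. -/
theorem sum_off (h : Adm d m r) {p : ℝ} (hp0 : 0 < p) (hp1 : p ≤ 1) (hρ : cst d m p < d) (t c : ℕ) :
    ∑ n ∈ Ico c (c + d ^ t), |off d m r t n| ^ p ≤ KK d r p / (d - cst d m p) * (d : ℝ) ^ t := by
  have hK := KK_nonneg d r p
  have hA : 0 ≤ KK d r p / (d - cst d m p) := div_nonneg hK (by linarith)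
  have hd0 : (0 : ℝ) < d := by exact_mod_cast (by have := h.hd; omega : 0 < d)
  induction t with
  | zero =>
    simp only [pow_zero, mul_one]
    have : ∑ n ∈ Ico c (c + 1), |off d m r 0 n| ^ p = 0 := by
      apply sum_eq_zero
      intro n _
      show |(0 : ℝ)| ^ p = 0
      rw [abs_zero, Real.zero_rpow hp0.ne']
    rw [this]
    exact hA
  | succ t ih =>
    rw [block_step h (fun _ x => |x| ^ p) t c]
    calc ∑ n ∈ Ico c (c + d ^ t), (|off d m r t n / d| ^ p +
          ∑ i ∈ Ico 1 d, |(m * off d m r t n - r i) / d| ^ p)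
        ≤ ∑ n ∈ Ico c (c + d ^ t), (cst d m p * |off d m r t n| ^ p + KK d r p) :=
          sum_le_sum fun n _ => step_bound h.hd hp0.le hp1 _
      _ = cst d m p * ∑ n ∈ Ico c (c + d ^ t), |off d m r t n| ^ p + KK d r p * (d : ℝ) ^ t := by
          rw [sum_add_distrib, ← mul_sum, sum_const, Nat.card_Ico, nsmul_eq_mul]
          push_cast
          simp [mul_comm]
      _ ≤ cst d m p * (KK d r p / (d - cst d m p) * (d : ℝ) ^ t) + KK d r p * (d : ℝ) ^ t := by
          have := cst_pos (m := m) h.hd p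
          gcongr
      _ = KK d r p / (d - cst d m p) * (d : ℝ) ^ (t + 1) := by
          have : (d : ℝ) - cst d m p ≠ 0 := by linarith
          rw [pow_succ]
          field_simp
          ring

/-- The offset stays large at the times `τ, ..., τ + j`. -/
def Stay (d m : ℕ) (r : ℤ → ℤ) (C : ℝ) (τ j : ℕ) (n : ℤ) : Prop := ∀ i ≤ j, C < |off d m r (τ + i) n|

open Classical in
theorem sum_stay (h : Adm d m r) {p C c' : ℝ} (hp0 : 0 < p) (hp1 : p ≤ 1) (hρ : cst d m p < d) (hC : 0 < C)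
    (hc' : cst d m p + KK d r p / C ^ p ≤ c') (τ j c : ℕ) :
    ∑ n ∈ Ico c (c + d ^ (τ + j)), (if Stay d m r C τ j n then |off d m r (τ + j) n| ^ p else 0) ≤
      c' ^ j * (KK d r p / (d - cst d m p) * (d : ℝ) ^ τ) := by
  have hK := KK_nonneg d r p
  have hCp : 0 < C ^ p := Real.rpow_pos_of_pos hC _
  have hc0 : 0 < c' := by
    have h1 := cst_pos (m := m) h.hd p
    have h2 : 0 ≤ KK d r p / C ^ p := by positivity
    linarith
  induction j with
  | zero =>
    rw [pow_zero, one_mul, add_zero]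
    refine le_trans ?_ (sum_off h hp0 hp1 hρ τ c)
    apply sum_le_sum
    intro n _
    split_ifs
    · exact le_rfl
    · exact Real.rpow_nonneg (abs_nonneg _) _
  | succ j ih =>
    rw [← add_assoc, block_split (d := d) (τ + j) c
      (fun n => if Stay d m r C τ (j + 1) n then |off d m r (τ + j + 1) n| ^ p else 0)]
    calc ∑ n ∈ Ico c (c + d ^ (τ + j)), ∑ i ∈ range d,
          (if Stay d m r C τ (j + 1) ((n + d ^ (τ + j) * i : ℕ) : ℤ) then
            |off d m r (τ + j + 1) ((n + d ^ (τ + j) * i : ℕ) : ℤ)| ^ p else 0)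
        ≤ ∑ n ∈ Ico c (c + d ^ (τ + j)), c' * (if Stay d m r C τ j n then |off d m r (τ + j) n| ^ p else 0) := by
          apply sum_le_sum
          intro n _
          have key : ∀ i ∈ range d, (if Stay d m r C τ (j + 1) ((n + d ^ (τ + j) * i : ℕ) : ℤ) then
              |off d m r (τ + j + 1) ((n + d ^ (τ + j) * i : ℕ) : ℤ)| ^ p else 0) ≤
              if Stay d m r C τ j n then |off d m r (τ + j + 1) ((n : ℤ) + d ^ (τ + j) * i)| ^ p else 0 := by
            intro i _
            have e : ((n + d ^ (τ + j) * i : ℕ) : ℤ) = (n : ℤ) + d ^ (τ + j) * i := by push_cast; ring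
            rw [e]
            by_cases hs : Stay d m r C τ (j + 1) ((n : ℤ) + d ^ (τ + j) * i)
            · rw [if_pos hs, if_pos]
              intro u hu
              have := hs u (by omega)
              rwa [(shift' h (by omega : τ + u ≤ τ + j) n i).2] at this
            · rw [if_neg hs]
              split_ifs
              · exact Real.rpow_nonneg (abs_nonneg _) _
              · exact le_rfl
          refine (sum_le_sum key).trans ?_
          by_cases hs : Stay d m r C τ j n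
          · simp only [if_pos hs]
            rw [class_sum h (τ + j) n (fun _ x => |x| ^ p)]
            refine (step_bound h.hd hp0.le hp1 _).trans ?_
            have h1 : C < |off d m r (τ + j) n| := hs j le_rfl
            have h2 : C ^ p ≤ |off d m r (τ + j) n| ^ p := Real.rpow_le_rpow hC.le h1.le hp0.le
            have h3 : KK d r p ≤ KK d r p / C ^ p * |off d m r (τ + j) n| ^ p := by
              calc KK d r p = KK d r p / C ^ p * C ^ p := by field_simp
                _ ≤ _ := by gcongr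
            have h4 : 0 ≤ |off d m r (τ + j) n| ^ p := Real.rpow_nonneg (abs_nonneg _) _
            calc cst d m p * |off d m r (τ + j) n| ^ p + KK d r p
                ≤ (cst d m p + KK d r p / C ^ p) * |off d m r (τ + j) n| ^ p := by linarith
              _ ≤ c' * |off d m r (τ + j) n| ^ p := by gcongr
          · simp only [if_neg hs]
            simp
      _ = c' * ∑ n ∈ Ico c (c + d ^ (τ + j)), (if Stay d m r C τ j n then |off d m r (τ + j) n| ^ p else 0) := by
          rw [mul_sum]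
      _ ≤ c' * (c' ^ j * (KK d r p / (d - cst d m p) * (d : ℝ) ^ τ)) := by gcongr
      _ = c' ^ (j + 1) * (KK d r p / (d - cst d m p) * (d : ℝ) ^ τ) := by rw [pow_succ]; ring

open Classical in
/-- Few elements of a block have offsets that stay large. -/
theorem card_stay (h : Adm d m r) {p C c' : ℝ} (hp0 : 0 < p) (hp1 : p ≤ 1) (hρ : cst d m p < d) (hC : 0 < C)
    (hc' : cst d m p + KK d r p / C ^ p ≤ c') (τ j c : ℕ) :
    (((Ico c (c + d ^ (τ + j))).filter (fun n : ℕ => Stay d m r C τ j n)).card : ℝ) ≤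
      KK d r p / (d - cst d m p) / C ^ p * (c' / d) ^ j * (d : ℝ) ^ (τ + j) := by
  have hCp : 0 < C ^ p := Real.rpow_pos_of_pos hC _
  have hd0 : (0 : ℝ) < d := by exact_mod_cast (by have := h.hd; omega : 0 < d)
  have h1 := sum_stay h hp0 hp1 hρ hC hc' τ j c
  have h2 : (((Ico c (c + d ^ (τ + j))).filter (fun n : ℕ => Stay d m r C τ j n)).card : ℝ) * C ^ p ≤
      c' ^ j * (KK d r p / (d - cst d m p) * (d : ℝ) ^ τ) := by
    refine le_trans ?_ h1
    rw [← Finset.sum_filter, ← nsmul_eq_mul, ← sum_const]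
    apply sum_le_sum
    intro n hn
    rw [mem_filter] at hn
    exact Real.rpow_le_rpow hC.le (hn.2 j le_rfl).le hp0.le
  rw [← le_div_iff₀ hCp] at h2
  refine h2.trans (le_of_eq ?_)
  rw [pow_add, div_pow]
  field_simp

/-- The exponential moments of the number of the terms not divisible by `d`. -/
theorem sum_exp (h : Adm d m r) {l : ℝ} (hl : |l| * ((d : ℝ) - 1) ≤ 1) (t c : ℕ) :
    ∑ n ∈ Ico c (c + d ^ t), Real.exp (l * ((d : ℝ) * nz d m r t n - t * ((d : ℝ) - 1))) ≤
      (d : ℝ) ^ t * Real.exp (t * (l ^ 2 * ((d : ℝ) - 1))) := by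
  have hd2 : (2 : ℝ) ≤ d := by exact_mod_cast h.hd
  induction t with
  | zero => simp [nz]
  | succ t ih =>
    rw [block_step h (fun k _ => Real.exp (l * ((d : ℝ) * k - (t + 1 : ℕ) * ((d : ℝ) - 1)))) t c]
    have hlam : |l| ≤ 1 := by
      have : |l| * 1 ≤ |l| * ((d : ℝ) - 1) := mul_le_mul_of_nonneg_left (by linarith) (abs_nonneg _)
      linarith
    have e1 : Real.exp l ≤ 1 + l + l ^ 2 := by
      have := Real.abs_exp_sub_one_sub_id_le hlam
      rw [abs_le] at this
      linarith [this.2]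
    have e2 : Real.exp (-(l * ((d : ℝ) - 1))) ≤ 1 - l * ((d : ℝ) - 1) + (l * ((d : ℝ) - 1)) ^ 2 := by
      have h3 : |-(l * ((d : ℝ) - 1))| ≤ 1 := by
        rw [abs_neg, abs_mul, abs_of_nonneg (by linarith : (0 : ℝ) ≤ (d : ℝ) - 1)]
        exact hl
      have := Real.abs_exp_sub_one_sub_id_le h3
      rw [abs_le] at this
      nlinarith [this.2]
    have e3 : Real.exp (-(l * ((d : ℝ) - 1))) + ((d : ℝ) - 1) * Real.exp l ≤
        d * Real.exp (l ^ 2 * ((d : ℝ) - 1)) := by
      have h4 : ((d : ℝ) - 1) * Real.exp l ≤ ((d : ℝ) - 1) * (1 + l + l ^ 2) :=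
        mul_le_mul_of_nonneg_left e1 (by linarith)
      have h5 := Real.add_one_le_exp (l ^ 2 * ((d : ℝ) - 1))
      have h6 : (d : ℝ) * (l ^ 2 * ((d : ℝ) - 1) + 1) ≤ d * Real.exp (l ^ 2 * ((d : ℝ) - 1)) :=
        mul_le_mul_of_nonneg_left h5 (by linarith)
      nlinarith
    have key : ∀ n ∈ Ico c (c + d ^ t),
        Real.exp (l * ((d : ℝ) * (nz d m r t n : ℕ) - (t + 1 : ℕ) * ((d : ℝ) - 1))) +
        ∑ i ∈ Ico 1 d, Real.exp (l * ((d : ℝ) * (nz d m r t n + 1 : ℕ) - (t + 1 : ℕ) * ((d : ℝ) - 1))) ≤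
        (d * Real.exp (l ^ 2 * ((d : ℝ) - 1))) *
          Real.exp (l * ((d : ℝ) * nz d m r t n - t * ((d : ℝ) - 1))) := by
      intro n _
      rw [sum_const, Nat.card_Ico, nsmul_eq_mul, Nat.cast_sub (by have := h.hd; omega)]
      have f1 : Real.exp (l * ((d : ℝ) * (nz d m r t n : ℕ) - (t + 1 : ℕ) * ((d : ℝ) - 1))) =
          Real.exp (-(l * ((d : ℝ) - 1))) * Real.exp (l * ((d : ℝ) * nz d m r t n - t * ((d : ℝ) - 1))) := by
        rw [← Real.exp_add]; congr 1; push_cast; ring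
      have f2 : Real.exp (l * ((d : ℝ) * (nz d m r t n + 1 : ℕ) - (t + 1 : ℕ) * ((d : ℝ) - 1))) =
          Real.exp l * Real.exp (l * ((d : ℝ) * nz d m r t n - t * ((d : ℝ) - 1))) := by
        rw [← Real.exp_add]; congr 1; push_cast; ring
      rw [f1, f2]
      have f3 := Real.exp_pos (l * ((d : ℝ) * nz d m r t n - t * ((d : ℝ) - 1)))
      calc Real.exp (-(l * ((d : ℝ) - 1))) * Real.exp (l * ((d : ℝ) * nz d m r t n - t * ((d : ℝ) - 1))) +
            ((d : ℝ) - (1 : ℕ)) * (Real.exp l * Real.exp (l * ((d : ℝ) * nz d m r t n - t * ((d : ℝ) - 1))))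
          = (Real.exp (-(l * ((d : ℝ) - 1))) + ((d : ℝ) - 1) * Real.exp l) *
            Real.exp (l * ((d : ℝ) * nz d m r t n - t * ((d : ℝ) - 1))) := by push_cast; ring
        _ ≤ _ := by gcongr
    refine (sum_le_sum key).trans ?_
    rw [← mul_sum]
    calc (d * Real.exp (l ^ 2 * ((d : ℝ) - 1))) * ∑ n ∈ Ico c (c + d ^ t),
          Real.exp (l * ((d : ℝ) * nz d m r t n - t * ((d : ℝ) - 1)))
        ≤ (d * Real.exp (l ^ 2 * ((d : ℝ) - 1))) * ((d : ℝ) ^ t * Real.exp (t * (l ^ 2 * ((d : ℝ) - 1)))) := by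
          gcongr
      _ = (d : ℝ) ^ (t + 1) * Real.exp ((t + 1 : ℕ) * (l ^ 2 * ((d : ℝ) - 1))) := by
          have : ((t + 1 : ℕ) : ℝ) * (l ^ 2 * ((d : ℝ) - 1)) =
              l ^ 2 * ((d : ℝ) - 1) + t * (l ^ 2 * ((d : ℝ) - 1)) := by push_cast; ring
          rw [this, Real.exp_add, pow_succ]
          ring

/-- Few elements of a block have an unbalanced word. -/
theorem card_nz (h : Adm d m r) {R : ℝ} {t : ℕ} (ht : 1 ≤ t) (hR : 0 ≤ R) (hRt : R * ((d : ℝ) - 1) ≤ t) (c : ℕ) :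
    (((Ico c (c + d ^ t)).filter (fun n : ℕ => (d : ℝ) * R ≤ |(d : ℝ) * nz d m r t n - t * ((d : ℝ) - 1)|)).card
      : ℝ) ≤ 2 * Real.exp (-(R ^ 2 / t)) * (d : ℝ) ^ t := by
  have hd2 : (2 : ℝ) ≤ d := by exact_mod_cast h.hd
  have ht0 : (0 : ℝ) < t := by exact_mod_cast ht
  set l := R / t with hl
  have hl0 : 0 ≤ l := by positivity
  have hlt : l * t = R := by rw [hl]; field_simp
  have hle : l * ((d : ℝ) - 1) ≤ 1 := by
    rw [hl, div_mul_eq_mul_div, div_le_one ht0]; exact hRt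
  have s1 := sum_exp h (l := l) (by rwa [abs_of_nonneg hl0]) t c
  have s2 := sum_exp h (l := -l) (by rwa [abs_neg, abs_of_nonneg hl0]) t c
  have hexp : Real.exp (t * (l ^ 2 * ((d : ℝ) - 1))) = Real.exp (-(R ^ 2 / t)) * Real.exp (l * (d * R)) := by
    rw [← Real.exp_add]
    congr 1
    rw [hl]
    field_simp
    ring
  have key : (((Ico c (c + d ^ t)).filter
      (fun n : ℕ => (d : ℝ) * R ≤ |(d : ℝ) * nz d m r t n - t * ((d : ℝ) - 1)|)).card : ℝ) *
      Real.exp (l * (d * R)) ≤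
      ∑ n ∈ Ico c (c + d ^ t), Real.exp (l * ((d : ℝ) * nz d m r t n - t * ((d : ℝ) - 1))) +
      ∑ n ∈ Ico c (c + d ^ t), Real.exp (-l * ((d : ℝ) * nz d m r t n - t * ((d : ℝ) - 1))) := by
    rw [← sum_add_distrib, ← nsmul_eq_mul, ← sum_const]
    calc ∑ n ∈ (Ico c (c + d ^ t)).filter
          (fun n : ℕ => (d : ℝ) * R ≤ |(d : ℝ) * nz d m r t n - t * ((d : ℝ) - 1)|), Real.exp (l * (d * R))
        ≤ ∑ n ∈ (Ico c (c + d ^ t)).filter
          (fun n : ℕ => (d : ℝ) * R ≤ |(d : ℝ) * nz d m r t n - t * ((d : ℝ) - 1)|),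
          (Real.exp (l * ((d : ℝ) * nz d m r t n - t * ((d : ℝ) - 1))) +
            Real.exp (-l * ((d : ℝ) * nz d m r t n - t * ((d : ℝ) - 1)))) := by
          apply sum_le_sum
          intro n hn
          rw [mem_filter] at hn
          have h3 := hn.2
          rcases le_or_gt 0 ((d : ℝ) * nz d m r t n - t * ((d : ℝ) - 1)) with h4 | h4
          · rw [abs_of_nonneg h4] at h3
            have h5 : Real.exp (l * (d * R)) ≤ Real.exp (l * ((d : ℝ) * nz d m r t n - t * ((d : ℝ) - 1))) :=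
              Real.exp_le_exp.2 (mul_le_mul_of_nonneg_left h3 hl0)
            linarith [Real.exp_pos (-l * ((d : ℝ) * nz d m r t n - t * ((d : ℝ) - 1)))]
          · rw [abs_of_neg h4] at h3
            have h5 : Real.exp (l * (d * R)) ≤ Real.exp (-l * ((d : ℝ) * nz d m r t n - t * ((d : ℝ) - 1))) := by
              apply Real.exp_le_exp.2
              have := mul_le_mul_of_nonneg_left h3 hl0
              linarith
            linarith [Real.exp_pos (l * ((d : ℝ) * nz d m r t n - t * ((d : ℝ) - 1)))]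
      _ ≤ _ := by
          apply sum_le_sum_of_subset_of_nonneg (filter_subset _ _)
          intro n _ _
          positivity
  have e2 : (-l) ^ 2 = l ^ 2 := by ring
  rw [e2] at s2
  have h6 : (((Ico c (c + d ^ t)).filter
      (fun n : ℕ => (d : ℝ) * R ≤ |(d : ℝ) * nz d m r t n - t * ((d : ℝ) - 1)|)).card : ℝ) *
      Real.exp (l * (d * R)) ≤ 2 * Real.exp (-(R ^ 2 / t)) * (d : ℝ) ^ t * Real.exp (l * (d * R)) := by
    rw [hexp] at s1 s2
    linarith
  exact le_of_mul_le_mul_right h6 (Real.exp_pos _)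

end Pool.Agent.H620.Gen
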