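import Pool.Agent.H620.Morph.Main

/-! Morphic sets and sets with a boundary which is sparse but not thin: with exponent `A > 1` of `log log`. -/

set_option autoImplicit false

namespace Pool.Agent.H620.Gen

open Finset Filter Topology
open Pool.Agent.H620.Bdry (cb)
open Pool.Agent.H620.Morph (ch IsMorphic pow_log_le diff_eq change_le bd_le morphic_gap)

/-- The bound of the theorems. -/
noncomputable def hA (A : ℝ) (N : ℕ) : ℝ := N / (√(Real.log N) * Real.log (Real.log N) ^ A)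

theorem hA_facts {A : ℝ} (hA0 : 0 ≤ A) : ∀ᶠ N : ℕ in atTop, 1 ≤ hA A N ∧ (N : ℝ) / Real.log N ≤ hA A N ∧
    hA A N ≤ N / √(Real.log N) := by
  have e3 : Tendsto (fun N : ℕ => Real.log (N : ℝ)) atTop atTop :=
    Real.tendsto_log_atTop.comp tendsto_natCast_atTop_atTop
  set j := ⌈A⌉₊ with hj
  have hjA : A ≤ j := Nat.le_ceil A
  filter_upwards [e3.eventually (pow_log_le (2 * j)), tendsto_natCast_atTop_atTop.eventually (pow_log_le 2),
    e3.eventually (eventually_gt_atTop 3), eventually_gt_atTop 0] with N h3 h4 h5 h6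
  have hN : (0 : ℝ) < N := by exact_mod_cast h6
  set L := Real.log (N : ℝ) with hL
  have hll : 1 ≤ Real.log L := by
    rw [Real.le_log_iff_exp_le (by linarith)]
    have := Real.exp_one_lt_d9
    linarith
  have hs : 0 < √L := Real.sqrt_pos.2 (by linarith)
  have hs1 : 1 ≤ √L := by
    rw [Real.one_le_sqrt]
    linarith
  have hss : √L * √L = L := Real.mul_self_sqrt (by linarith)
  have h7 : Real.log L ^ A ≤ √L := by
    have h71 : Real.log L ^ A ≤ Real.log L ^ (j : ℝ) := Real.rpow_le_rpow_of_exponent_le hll hjA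
    rw [Real.rpow_natCast] at h71
    refine h71.trans (Real.le_sqrt_of_sq_le ?_)
    rw [← pow_mul, mul_comm]
    exact h3
  have h8 : √L * Real.log L ^ A ≤ L := by
    calc √L * Real.log L ^ A ≤ √L * √L := by gcongr
      _ = L := hss
  have h9 : L ≤ N := by nlinarith
  have h10 : 0 < Real.log L := by linarith
  have h11 : 0 < Real.log L ^ A := Real.rpow_pos_of_pos h10 A
  refine ⟨?_, ?_, ?_⟩
  · unfold hA
    rw [one_le_div (by positivity)]
    exact h8.trans h9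
  · unfold hA
    apply div_le_div_of_nonneg_left hN.le (by positivity) h8
  · unfold hA
    apply div_le_div_of_nonneg_left hN.le hs
    have : 1 ≤ Real.log L ^ A := Real.one_le_rpow hll hA0
    nlinarith

/-- The count of the boundary points, with and without the point `0`. -/
theorem cb_le' {P : ℕ → Prop} (N : ℕ) :
    cb P N ≤ {n : ℕ | 1 ≤ n ∧ n ≤ N ∧ ¬ (P n ↔ P (n + 1))}.ncard + 1 := Bdry.cb_le N

/-- **Main lemma.** -/
theorem not_near {P w : ℕ → Prop} {A K' : ℝ} (hA0 : 0 ≤ A)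
    (hup : ∀ N : ℕ, 2 ≤ N → ({n : ℕ | 1 ≤ n ∧ n ≤ N ∧ ¬ (P n ↔ P (n + 1))}.ncard : ℝ) ≤ K' * (N / √(Real.log N)))
    (hthin : ∀ K : ℝ, ¬ ∀ᶠ N : ℕ in atTop, (cb P N : ℝ) ≤ K * hA A N) (hw : IsMorphic w) (K : ℝ)
    (h : ∀ᶠ N : ℕ in atTop, ({n : ℕ | 1 ≤ n ∧ n ≤ N ∧ ¬ (P n ↔ w n)}.ncard : ℝ) ≤ K * hA A N) : False := by
  classical
  have hB : ∀ N : ℕ, {n : ℕ | 1 ≤ n ∧ n ≤ N ∧ ¬ (P n ↔ P (n + 1))}.ncard =
      ((Icc 1 N).filter (fun n => ¬ (P n ↔ P (n + 1)))).card := fun N => diff_eq P (fun n => P (n + 1)) N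
  have e3 : Tendsto (fun N : ℕ => Real.log (N : ℝ)) atTop atTop :=
    Real.tendsto_log_atTop.comp tendsto_natCast_atTop_atTop
  -- the changes of `w` have density zero
  have ho : Tendsto (fun N : ℕ => (ch w N : ℝ) / N) atTop (𝓝 0) := by
    have hup' : Tendsto (fun N : ℕ => (1 : ℝ) / N + (|K'| + 2 * |K|) * (√(Real.log N))⁻¹) atTop (𝓝 0) := by
      have h1 := tendsto_one_div_atTop_nhds_zero_nat (𝕜 := ℝ)
      have h2 : Tendsto (fun N : ℕ => (√(Real.log (N : ℝ)))⁻¹) atTop (𝓝 0) :=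
        tendsto_inv_atTop_zero.comp ((Real.tendsto_sqrt_atTop).comp e3)
      have h3 := h1.add (h2.const_mul (|K'| + 2 * |K|))
      simpa using h3
    refine squeeze_zero' (Eventually.of_forall fun N => by positivity) ?_ hup'
    filter_upwards [h, hA_facts hA0, eventually_ge_atTop 2, e3.eventually (eventually_gt_atTop 0)] with N h1 h2 h3 h4
    have hN : (0 : ℝ) < N := by exact_mod_cast (by omega : 0 < N)
    have h5 := change_le P w N
    rw [← hB N, ← diff_eq P w N] at h5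
    have h6 : (ch w N : ℝ) ≤ 1 + ({n : ℕ | 1 ≤ n ∧ n ≤ N ∧ ¬ (P n ↔ P (n + 1))}.ncard : ℝ) +
        2 * ({n : ℕ | 1 ≤ n ∧ n ≤ N ∧ ¬ (P n ↔ w n)}.ncard : ℝ) := by exact_mod_cast h5
    have h7 := hup N h3
    have hs : 0 < √(Real.log (N : ℝ)) := Real.sqrt_pos.2 h4
    have hq : 0 ≤ (N : ℝ) / √(Real.log N) := by positivity
    have h8 : K' * ((N : ℝ) / √(Real.log N)) ≤ |K'| * ((N : ℝ) / √(Real.log N)) :=
      mul_le_mul_of_nonneg_right (le_abs_self _) hq
    have h9 : K * hA A N ≤ |K| * ((N : ℝ) / √(Real.log N)) := by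
      calc K * hA A N ≤ |K| * hA A N := mul_le_mul_of_nonneg_right (le_abs_self _) (by linarith [h2.1])
        _ ≤ |K| * ((N : ℝ) / √(Real.log N)) := mul_le_mul_of_nonneg_left h2.2.2 (abs_nonneg _)
    rw [div_le_iff₀ hN]
    have h10 : ((1 : ℝ) / N + (|K'| + 2 * |K|) * (√(Real.log N))⁻¹) * N =
        1 + |K'| * ((N : ℝ) / √(Real.log N)) + 2 * (|K| * ((N : ℝ) / √(Real.log N))) := by
      field_simp
      ring
    rw [h10]
    linarith
  obtain ⟨C, hC0, hC⟩ := morphic_gap hw ho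
  apply hthin (C + 2 * |K| + 3)
  filter_upwards [h, hA_facts hA0, hC] with N h1 h2 h3
  have h4 := bd_le P w N
  rw [← hB N, ← diff_eq P w N] at h4
  have h5 := cb_le' (P := P) N
  have h6 : (cb P N : ℝ) ≤ ch w N + 3 + 2 * ({n : ℕ | 1 ≤ n ∧ n ≤ N ∧ ¬ (P n ↔ w n)}.ncard : ℝ) := by
    have : cb P N ≤ ch w N + 3 + 2 * {n : ℕ | 1 ≤ n ∧ n ≤ N ∧ ¬ (P n ↔ w n)}.ncard := by omega
    exact_mod_cast this
  have h7 : C * ((N : ℝ) / Real.log N) ≤ C * hA A N := mul_le_mul_of_nonneg_left h2.2.1 hC0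
  have h8 : K * hA A N ≤ |K| * hA A N := mul_le_mul_of_nonneg_right (le_abs_self _) (by linarith [h2.1])
  nlinarith [h2.1]

end Pool.Agent.H620.Gen
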