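import Mathlib

/-! The Collatz map and the Syracuse map on the negative integers. -/

set_option autoImplicit false

namespace Pool.Agent.H620.Neg

/-- The Collatz map on the integers. -/
def C (x : ℤ) : ℤ := if x % 2 = 0 then x / 2 else 3 * x + 1

/-- The Syracuse map on the odd integers. -/
def Syr (x : ℤ) : ℤ := (3 * x + 1) / 2 ^ padicValInt 2 (3 * x + 1)

theorem C_two (x : ℤ) : C (2 * x) = x := by unfold C; rw [if_pos (by omega)]; omega

theorem C_iter_two (v : ℕ) (x : ℤ) : ∀ i ≤ v, C^[i] (2 ^ v * x) = 2 ^ (v - i) * x := by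
  intro i
  induction i with
  | zero => intro _; simp
  | succ i ih =>
    intro hi
    rw [Function.iterate_succ_apply', ih (by omega), show v - i = (v - (i + 1)) + 1 by omega, pow_succ,
      mul_comm ((2 : ℤ) ^ (v - (i + 1))) 2, mul_assoc, C_two]

theorem odd_part (M : ℤ) (hM : M ≠ 0) : M = 2 ^ padicValInt 2 M * (M / 2 ^ padicValInt 2 M) ∧
    Odd (M / 2 ^ padicValInt 2 M) := by
  have hdvd : (2 : ℤ) ^ padicValInt 2 M ∣ M := by
    have h := padicValInt_dvd (p := 2) M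
    exact_mod_cast h
  have e : M = 2 ^ padicValInt 2 M * (M / 2 ^ padicValInt 2 M) := (Int.mul_ediv_cancel' hdvd).symm
  refine ⟨e, ?_⟩
  by_contra hcon
  rw [Int.not_odd_iff_even, even_iff_two_dvd] at hcon
  obtain ⟨q, hq⟩ := hcon
  have h1 : (2 : ℤ) ^ (padicValInt 2 M + 1) ∣ M := by
    refine ⟨q, ?_⟩
    rw [pow_succ, mul_assoc, ← hq]
    exact e
  have h2 : ((2 : ℕ) : ℤ) ^ (padicValInt 2 M + 1) ∣ M := by exact_mod_cast h1
  rw [padicValInt_dvd_iff] at h2
  rcases h2 with h2 | h2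
  · exact hM h2
  · omega

theorem odd_facts {x : ℤ} (hx : Odd x) : ∃ v : ℕ, 1 ≤ v ∧ Odd (Syr x) ∧ 3 * x + 1 = 2 ^ v * Syr x := by
  have h0 : 3 * x + 1 ≠ 0 := by omega
  obtain ⟨h1, h2⟩ := odd_part _ h0
  refine ⟨padicValInt 2 (3 * x + 1), ?_, h2, h1⟩
  by_contra hcon
  have h3 : padicValInt 2 (3 * x + 1) = 0 := by omega
  rw [h3] at h1 h2
  rw [pow_zero, Int.ediv_one] at h2
  obtain ⟨a, ha⟩ := hx
  obtain ⟨b, hb⟩ := h2
  omega

theorem Syr_neg {x : ℤ} (hx : Odd x) (hn : x < 0) : Syr x < 0 := by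
  obtain ⟨v, _, _, h⟩ := odd_facts hx
  have h2 : (0 : ℤ) < 2 ^ v := by positivity
  by_contra hcon
  push Not at hcon
  have := mul_nonneg h2.le hcon
  omega

theorem C_odd {x : ℤ} (hx : Odd x) : C x = 3 * x + 1 := by
  unfold C
  rw [if_neg (by obtain ⟨a, ha⟩ := hx; omega)]

/-- The trajectory of an odd integer under `Syr` is a part of the trajectory under `C`. -/
theorem syr_to_C (k : ℕ) : ∀ x : ℤ, Odd x → ∃ j : ℕ, C^[j] x = Syr^[k] x := by
  induction k with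
  | zero => intro x _; exact ⟨0, rfl⟩
  | succ k ih =>
    intro x hx
    obtain ⟨v, _, h2, h3⟩ := odd_facts hx
    obtain ⟨j, hj⟩ := ih (Syr x) h2
    refine ⟨j + (v + 1), ?_⟩
    rw [Function.iterate_add_apply, Function.iterate_succ_apply, C_odd hx, h3, C_iter_two v _ v le_rfl,
      Nat.sub_self, pow_zero, one_mul, hj, Function.iterate_succ_apply]

theorem C_to_syr {c : ℤ} (hc : Odd c) (k : ℕ) : ∀ x : ℤ, Odd x → C^[k] x = c → ∃ j : ℕ, Syr^[j] x = c := by
  induction k using Nat.strong_induction_on with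
  | _ k ih =>
    intro x hx hk
    rcases Nat.eq_zero_or_pos k with h0 | h0
    · subst h0
      exact ⟨0, hk⟩
    · obtain ⟨v, hv, h2, h3⟩ := odd_facts hx
      obtain ⟨k', rfl⟩ : ∃ k', k = k' + 1 := ⟨k - 1, by omega⟩
      rw [Function.iterate_succ_apply, C_odd hx, h3] at hk
      rcases lt_or_ge k' v with hlt | hge
      · rw [C_iter_two v _ k' hlt.le] at hk
        exfalso
        obtain ⟨w, hw⟩ : ∃ w, v - k' = w + 1 := ⟨v - k' - 1, by omega⟩
        rw [hw, pow_succ] at hk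
        obtain ⟨a, ha⟩ := hc
        have : 2 * ((2 : ℤ) ^ w * Syr x) = 2 * a + 1 := by rw [← ha, ← hk]; ring
        omega
      · obtain ⟨e, rfl⟩ : ∃ e, k' = e + v := ⟨k' - v, by omega⟩
        rw [Function.iterate_add_apply, C_iter_two v _ v le_rfl, Nat.sub_self, pow_zero, one_mul] at hk
        obtain ⟨j, hj⟩ := ih e (by omega) (Syr x) h2 hk
        exact ⟨j + 1, by rw [Function.iterate_succ_apply]; exact hj⟩

/-- Every nonzero integer is taken by `C` to an odd one with the same sign. -/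
theorem to_odd (x : ℤ) (hx : x < 0) : ∃ (a : ℕ) (y : ℤ), Odd y ∧ y < 0 ∧ C^[a] x = y := by
  obtain ⟨h1, h2⟩ := odd_part x hx.ne
  refine ⟨padicValInt 2 x, x / 2 ^ padicValInt 2 x, h2, ?_, ?_⟩
  · have h3 : (0 : ℤ) < 2 ^ padicValInt 2 x := by positivity
    exact Int.ediv_neg_of_neg_of_pos hx h3
  · have h4 := C_iter_two (padicValInt 2 x) (x / 2 ^ padicValInt 2 x) _ le_rfl
    rw [← h1, Nat.sub_self, pow_zero, one_mul] at h4
    exact h4

/-- The ten elements of the three cycles. -/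
def Cyc : Set ℤ := {-1, -5, -7, -17, -25, -37, -55, -41, -61, -91}

theorem cyc_reach {x : ℤ} (hx : x ∈ Cyc) : ∃ k : ℕ, C^[k] x = -1 ∨ C^[k] x = -5 ∨ C^[k] x = -17 := by
  simp only [Cyc, Set.mem_insert_iff, Set.mem_singleton_iff] at hx
  rcases hx with rfl | rfl | rfl | rfl | rfl | rfl | rfl | rfl | rfl | rfl
  · exact ⟨0, by decide⟩
  · exact ⟨0, by decide⟩
  · exact ⟨3, by decide⟩
  · exact ⟨0, by decide⟩
  · exact ⟨16, by decide⟩
  · exact ⟨14, by decide⟩
  · exact ⟨12, by decide⟩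
  · exact ⟨9, by decide⟩
  · exact ⟨7, by decide⟩
  · exact ⟨5, by decide⟩

/-- The problem, in terms of the trajectories under `C`. -/
theorem conj_iff : (∀ x : ℤ, x < 0 → Odd x → ∃ k : ℕ, Syr^[k] x ∈ Cyc) ↔
    ∀ n : ℕ, 1 ≤ n → ∃ k : ℕ, C^[k] (-(n : ℤ)) = -1 ∨ C^[k] (-(n : ℤ)) = -5 ∨ C^[k] (-(n : ℤ)) = -17 := by
  constructor
  · intro h n hn
    obtain ⟨a, y, h1, h2, h3⟩ := to_odd (-(n : ℤ)) (by omega)
    obtain ⟨k, hk⟩ := h y h2 h1
    obtain ⟨j, hj⟩ := syr_to_C k y h1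
    obtain ⟨l, hl⟩ := cyc_reach hk
    refine ⟨l + (j + a), ?_⟩
    rw [Function.iterate_add_apply, Function.iterate_add_apply C j a, h3, hj]
    exact hl
  · intro h x hx hodd
    obtain ⟨k, hk⟩ := h x.natAbs (by omega)
    have e : -((x.natAbs : ℕ) : ℤ) = x := by omega
    rw [e] at hk
    rcases hk with hk | hk | hk
    · obtain ⟨j, hj⟩ := C_to_syr (by decide) k x hodd hk
      exact ⟨j, by rw [hj]; simp [Cyc]⟩
    · obtain ⟨j, hj⟩ := C_to_syr (by decide) k x hodd hk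
      exact ⟨j, by rw [hj]; simp [Cyc]⟩
    · obtain ⟨j, hj⟩ := C_to_syr (by decide) k x hodd hk
      exact ⟨j, by rw [hj]; simp [Cyc]⟩

end Pool.Agent.H620.Neg
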