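import Pool.Agent.H620.Gen.Stage
import Pool.Agent.H620.Gen.Compose

/-! The choice of the parameters of a stage. -/

set_option autoImplicit false

namespace Pool.Agent.H620.Gen

open Finset MeasureTheory Filter Topology
open Pool.Agent.H620.Bdry (W Bd cb Dset)

variable {d m : ℕ} {r : ℤ → ℤ}

theorem log_contraction (h : Adm d m r) (hcon : m ^ (d - 1) < d ^ d) :
    0 < d * Real.log d - ((d : ℝ) - 1) * Real.log m := by
  have hd := h.hd
  have hm := h.hm
  have h1 : Real.log ((m ^ (d - 1) : ℕ) : ℝ) < Real.log ((d ^ d : ℕ) : ℝ) :=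
    Real.log_lt_log (by positivity) (by exact_mod_cast hcon)
  rw [Nat.cast_pow, Nat.cast_pow, Real.log_pow, Real.log_pow, Nat.cast_sub (by omega)] at h1
  push_cast at h1
  linarith

theorem exists_p (h : Adm d m r) (hcon : m ^ (d - 1) < d ^ d) :
    ∃ p : ℝ, 0 < p ∧ p ≤ 1 ∧ cst d m p < d := by
  have hd2 : (2 : ℝ) ≤ d := by exact_mod_cast h.hd
  have hm2 : (2 : ℝ) ≤ m := by exact_mod_cast h.hm
  have hD := log_contraction h hcon
  set D₀ := d * Real.log d - ((d : ℝ) - 1) * Real.log m with hD₀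
  set a := Real.log d with ha
  set b := Real.log ((m : ℝ) / d) with hb
  have hb' : b = Real.log m - a := by
    rw [hb, Real.log_div (by positivity) (by positivity)]
  set E := a ^ 2 + ((d : ℝ) - 1) * b ^ 2 with hE
  have hE0 : 0 ≤ E := by
    have : 0 ≤ ((d : ℝ) - 1) * b ^ 2 := mul_nonneg (by linarith) (sq_nonneg _)
    positivity
  set p := min 1 (min (1 / (|a| + |b| + 1)) (D₀ / (2 * (E + 1)))) with hp
  have hp0 : 0 < p := by
    rw [hp]
    refine lt_min one_pos (lt_min ?_ ?_)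
    · positivity
    · positivity
  have hp1 : p ≤ 1 := min_le_left _ _
  have hp2 : p ≤ 1 / (|a| + |b| + 1) := (min_le_right _ _).trans (min_le_left _ _)
  have hp3 : p ≤ D₀ / (2 * (E + 1)) := (min_le_right _ _).trans (min_le_right _ _)
  rw [le_div_iff₀ (by positivity)] at hp2 hp3
  refine ⟨p, hp0, hp1, ?_⟩
  have e1 : (d : ℝ) ^ (-p) ≤ 1 - p * a + (p * a) ^ 2 := by
    rw [Real.rpow_def_of_pos (by positivity)]
    have h3 : |a * -p| ≤ 1 := by
      rw [abs_mul, abs_neg, abs_of_pos hp0]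
      nlinarith [abs_nonneg a, abs_nonneg b]
    have := Real.abs_exp_sub_one_sub_id_le h3
    rw [abs_le] at this
    nlinarith [this.2]
  have e2 : ((m : ℝ) / d) ^ p ≤ 1 + p * b + (p * b) ^ 2 := by
    rw [Real.rpow_def_of_pos (by positivity)]
    have h3 : |b * p| ≤ 1 := by
      rw [abs_mul, abs_of_pos hp0]
      nlinarith [abs_nonneg a, abs_nonneg b]
    have := Real.abs_exp_sub_one_sub_id_le h3
    rw [abs_le] at this
    nlinarith [this.2]
  have e3 : ((d : ℝ) - 1) * ((m : ℝ) / d) ^ p ≤ ((d : ℝ) - 1) * (1 + p * b + (p * b) ^ 2) :=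
    mul_le_mul_of_nonneg_left e2 (by linarith)
  have e4 : cst d m p ≤ d - p * D₀ + p ^ 2 * E := by
    unfold cst
    have : -a + ((d : ℝ) - 1) * b = -D₀ := by
      rw [hb', hD₀]; ring
    have h5 : (1 - p * a + (p * a) ^ 2) + ((d : ℝ) - 1) * (1 + p * b + (p * b) ^ 2) =
        d + p * (-a + ((d : ℝ) - 1) * b) + p ^ 2 * E := by rw [hE]; ring
    rw [this] at h5
    linarith
  have e5 : p * E < D₀ := by nlinarith
  nlinarith

/-- The eventual properties of the parameters. -/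
theorem param_facts {c b κ₀ ε : ℝ} (hc : 0 < c) (hκ : 0 ≤ κ₀) (hε : 0 < ε) :
    ∀ᶠ t : ℕ in atTop, 2 ≤ Real.log t ∧ κ₀ * Real.log (Real.log t) + 3 ≤ Real.log t ^ c ∧
      b * Real.log (Real.log t) ≤ Real.log t ^ (2 * c) ∧ Real.log t ^ c ≤ ε / 2 * √(t : ℝ) := by
  have hT : Tendsto (fun t : ℕ => Real.log (t : ℝ)) atTop atTop :=
    Real.tendsto_log_atTop.comp tendsto_natCast_atTop_atTop
  have h1 : ∀ᶠ L : ℝ in atTop, κ₀ * Real.log L + 3 ≤ L ^ c := by
    have e1 := (isLittleO_log_rpow_atTop hc).bound (by positivity : (0 : ℝ) < 1 / (2 * (κ₀ + 1)))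
    have e2 : ∀ᶠ L : ℝ in atTop, 6 ≤ L ^ c := (tendsto_rpow_atTop hc).eventually_ge_atTop 6
    filter_upwards [e1, e2, eventually_gt_atTop 1] with L h2 h3 h4
    have hL : 0 < Real.log L := Real.log_pos h4
    rw [Real.norm_of_nonneg hL.le, Real.norm_of_nonneg (by positivity)] at h2
    have h5 : κ₀ * Real.log L ≤ κ₀ * (1 / (2 * (κ₀ + 1)) * L ^ c) := mul_le_mul_of_nonneg_left h2 hκ
    have h6 : κ₀ * (1 / (2 * (κ₀ + 1)) * L ^ c) ≤ 1 / 2 * L ^ c := by
      rw [← mul_assoc]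
      apply mul_le_mul_of_nonneg_right _ (by positivity)
      rw [mul_one_div, div_le_div_iff₀ (by positivity) (by norm_num)]
      linarith
    linarith
  have h2 : ∀ᶠ L : ℝ in atTop, b * Real.log L ≤ L ^ (2 * c) := by
    have e1 := (isLittleO_log_rpow_atTop (by positivity : 0 < 2 * c)).bound
      (by positivity : (0 : ℝ) < 1 / (|b| + 1))
    filter_upwards [e1, eventually_gt_atTop 1] with L h2 h4
    have hL : 0 < Real.log L := Real.log_pos h4
    rw [Real.norm_of_nonneg hL.le, Real.norm_of_nonneg (by positivity)] at h2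
    have h5 : |b| * Real.log L ≤ |b| * (1 / (|b| + 1) * L ^ (2 * c)) :=
      mul_le_mul_of_nonneg_left h2 (abs_nonneg b)
    have h6 : |b| * (1 / (|b| + 1) * L ^ (2 * c)) ≤ 1 * L ^ (2 * c) := by
      rw [← mul_assoc]
      apply mul_le_mul_of_nonneg_right _ (by positivity)
      rw [mul_one_div, div_le_one (by positivity)]
      linarith
    have h7 : b * Real.log L ≤ |b| * Real.log L := mul_le_mul_of_nonneg_right (le_abs_self b) hL.le
    linarith
  have h3 : ∀ᶠ t : ℝ in atTop, Real.log t ^ c ≤ ε / 2 * √t := by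
    have e1 := (isLittleO_log_rpow_rpow_atTop c (by norm_num : (0 : ℝ) < 1 / 2)).bound
      (by positivity : (0 : ℝ) < ε / 2)
    filter_upwards [e1, eventually_gt_atTop 1] with t h2 h4
    have hL : 0 < Real.log t := Real.log_pos h4
    rw [Real.norm_of_nonneg (by positivity), Real.norm_of_nonneg (by positivity)] at h2
    rwa [Real.sqrt_eq_rpow]
  filter_upwards [hT.eventually_ge_atTop 2, hT.eventually h1, hT.eventually h2,
    tendsto_natCast_atTop_atTop.eventually h3] with t g1 g2 g3 g4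
  exact ⟨g1, g2, g3, g4⟩

/-- One stage, with the choice of the parameters. -/
theorem stage_param (h : Adm d m r) (hcon : m ^ (d - 1) < d ^ d) {Q : ℤ → Prop}
    (hQ : ∀ x, Q x ↔ Q (T d m r x)) {A K : ℝ} (hA : 1 < A) (hK : 0 ≤ K) {N₁ : ℕ}
    (hcb : ∀ N : ℕ, N₁ ≤ N → (cb (fun n : ℕ => Q n) N : ℝ) ≤
      K * (N / (√(Real.log N) * Real.log (Real.log N) ^ A))) :
    ∃ c A₁ : ℝ, 0 < c ∧ 0 < A₁ ∧ ∀ᶠ t : ℕ in atTop, ∀ x : ℝ, (d : ℝ) ^ t ≤ x → x < (d : ℝ) ^ (t + 1) →
      volume (Dset (fun n : ℕ => Q n) x ((m : ℝ) ^ (t * (d - 1) / d) / (d : ℝ) ^ t)) ≤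
        ENNReal.ofReal (A₁ * Real.log t ^ (-(1 + c)) * x) := by
  have hdn := h.hd
  have hmn := h.hm
  have hd2 : (2 : ℝ) ≤ d := by exact_mod_cast hdn
  have hm2 : (2 : ℝ) ≤ m := by exact_mod_cast hmn
  obtain ⟨p, hp0, hp1, hρ⟩ := exists_p h hcon
  have hD := log_contraction h hcon
  set D₀ := d * Real.log d - ((d : ℝ) - 1) * Real.log m with hD₀
  have hKK := KK_nonneg d r p
  have hcst := cst_pos (m := m) hdn p
  -- the constants `C`, `c'`
  set c' := (cst d m p + d) / 2 with hc'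
  set C := (2 * KK d r p / (d - cst d m p) + 1) ^ (1 / p) with hC
  have hdc : 0 < d - cst d m p := by linarith
  have hbase : 0 < 2 * KK d r p / (d - cst d m p) + 1 := by positivity
  have hC0 : 0 < C := Real.rpow_pos_of_pos hbase _
  have hCp : C ^ p = 2 * KK d r p / (d - cst d m p) + 1 := by
    rw [hC, ← Real.rpow_mul hbase.le]
    rw [one_div_mul_cancel hp0.ne', Real.rpow_one]
  have hcc : cst d m p + KK d r p / C ^ p ≤ c' := by
    have h1 : KK d r p / C ^ p ≤ (d - cst d m p) / 2 := by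
      rw [div_le_iff₀ (by rw [hCp]; exact hbase), hCp]
      have : (d - cst d m p) / 2 * (2 * KK d r p / (d - cst d m p) + 1) =
          KK d r p + (d - cst d m p) / 2 := by field_simp
      rw [this]
      linarith
    rw [hc']
    linarith
  have hc'd : c' < d := by rw [hc']; linarith
  have hc'0 : 0 < c' := by rw [hc']; linarith
  set G := (d : ℝ) + (m + |((T d m r 1 : ℤ) : ℝ)|) + (C + 1) with hG
  have hT1 := abs_nonneg (((T d m r 1 : ℤ) : ℝ))
  have hG0 : 0 < G := by rw [hG]; positivity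
  -- the exponents
  set c := (A - 1) / 3 with hcdef
  have hc0 : 0 < c := by rw [hcdef]; linarith
  set b := 1 + c with hb
  have hb0 : 0 < b := by linarith
  set q := Real.log (d / c') with hq
  have hq0 : 0 < q := Real.log_pos (by rw [lt_div_iff₀ hc'0]; linarith)
  set κ₀ := b / q with hκ₀
  have hκ0 : 0 < κ₀ := by positivity
  set lm := Real.log m with hlm
  set ld := Real.log d with hld
  have hlm0 : 0.5 < lm := by
    have h1 : Real.log 2 ≤ lm := Real.log_le_log (by norm_num) hm2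
    linarith [Real.log_two_gt_d9]
  have hld0 : 0.5 < ld := by
    have h1 : Real.log 2 ≤ ld := Real.log_le_log (by norm_num) hd2
    linarith [Real.log_two_gt_d9]
  set ε : ℝ := min (1 / 8) (min (1 / (d : ℝ)) (D₀ / d / (lm + ld))) with hε
  have hε0 : 0 < ε := by
    rw [hε]
    refine lt_min (by norm_num) (lt_min (by positivity) (by positivity))
  have hε1 : ε ≤ 1 / 8 := min_le_left _ _
  have hε2 : ε ≤ 1 / d := (min_le_right _ _).trans (min_le_left _ _)
  have hε3 : ε ≤ D₀ / d / (lm + ld) := (min_le_right _ _).trans (min_le_right _ _)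
  set A₂ := KK d r p / (d - cst d m p) / C ^ p with hA₂
  have hA₂0 : 0 ≤ A₂ := by
    have : 0 < C ^ p := Real.rpow_pos_of_pos hC0 _
    rw [hA₂]; positivity
  refine ⟨c, 126 * G * K * 2 ^ A + (d + 1) * (A₂ + 2), hc0, by positivity, ?_⟩
  have htend : Tendsto (fun t : ℕ => (t : ℝ)) atTop atTop := tendsto_natCast_atTop_atTop
  filter_upwards [param_facts (b := b) hc0 hκ0.le hε0, htend.eventually_ge_atTop (8 * G + 4 * N₁ + 100)]
    with t hfacts htbig x hx1 hx2
  obtain ⟨f1, f2, f3, f4⟩ := hfacts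
  have hN₁0 : (0 : ℝ) ≤ N₁ := Nat.cast_nonneg _
  have ht100 : (100 : ℝ) ≤ t := by linarith
  have htp : (0 : ℝ) < t := by linarith
  set L := Real.log t with hL
  have hL1 : 1 ≤ L := by linarith
  have hL0 : 0 < L := by linarith
  have hlogL : 0 ≤ Real.log L := Real.log_nonneg hL1
  have hLc1 : 1 ≤ L ^ c := Real.one_le_rpow hL1 hc0.le
  have hsq : √(t : ℝ) * √(t : ℝ) = t := Real.mul_self_sqrt htp.le
  have hsq1 : 1 ≤ √(t : ℝ) := by rw [Real.one_le_sqrt]; linarith
  set R := ⌈√(t : ℝ) * L ^ c⌉₊ with hR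
  set s := ⌈κ₀ * Real.log L⌉₊ + 1 with hs
  have hRl : √(t : ℝ) * L ^ c ≤ R := Nat.le_ceil _
  have hRu : (R : ℝ) < √(t : ℝ) * L ^ c + 1 := Nat.ceil_lt_add_one (by positivity)
  have hsl : κ₀ * Real.log L ≤ (s : ℝ) := by
    rw [hs]; push_cast
    linarith [Nat.le_ceil (κ₀ * Real.log L)]
  have hsu : (s : ℝ) < κ₀ * Real.log L + 2 := by
    rw [hs]; push_cast
    linarith [Nat.ceil_lt_add_one (by positivity : 0 ≤ κ₀ * Real.log L)]
  have hs1 : 1 ≤ s := by omega
  have hsum : ((R : ℝ) + s) ≤ 2 * (√(t : ℝ) * L ^ c) := by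
    have : L ^ c ≤ √(t : ℝ) * L ^ c := le_mul_of_one_le_left (by positivity) hsq1
    linarith
  have hsumε : ((R : ℝ) + s) ≤ ε * t := by
    refine hsum.trans ?_
    have : √(t : ℝ) * L ^ c ≤ √(t : ℝ) * (ε / 2 * √(t : ℝ)) := by gcongr
    have e : √(t : ℝ) * (ε / 2 * √(t : ℝ)) = ε / 2 * t := by
      calc √(t : ℝ) * (ε / 2 * √(t : ℝ)) = ε / 2 * (√(t : ℝ) * √(t : ℝ)) := by ring
        _ = ε / 2 * t := by rw [hsq]
    rw [e] at this
    linarith
  have hR0 : (0 : ℝ) ≤ R := Nat.cast_nonneg _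
  have hs0 : (0 : ℝ) ≤ s := Nat.cast_nonneg _
  have hst : s ≤ t := by
    have h1 : (s : ℝ) ≤ t := by
      have : ε * t ≤ 1 / 8 * t := by gcongr
      linarith
    exact_mod_cast h1
  have hRt : (R : ℝ) * ((d : ℝ) - 1) ≤ t := by
    have h1 : (R : ℝ) ≤ 1 / d * t := by
      have : ε * t ≤ 1 / d * t := by gcongr
      linarith
    calc (R : ℝ) * ((d : ℝ) - 1) ≤ 1 / d * t * d := by
          apply mul_le_mul h1 (by linarith) (by linarith) (by positivity)
      _ = t := by field_simp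
  set a₀ := t * (d - 1) / d with ha₀
  have hcast : ((t * (d - 1) : ℕ) : ℝ) = t * ((d : ℝ) - 1) := by
    rw [Nat.cast_mul, Nat.cast_sub (by omega)]; simp
  have hdiv1 : (d : ℝ) * a₀ ≤ t * ((d : ℝ) - 1) := by
    rw [← hcast]; exact_mod_cast Nat.mul_div_le (t * (d - 1)) d
  have hdiv2 : (t : ℝ) * ((d : ℝ) - 1) < d * (a₀ + 1) := by
    rw [← hcast]; exact_mod_cast Nat.lt_mul_div_succ (t * (d - 1)) (by omega : 0 < d)
  have ha₀l : (t : ℝ) / 2 - 1 ≤ a₀ := by
    have h1 : (d : ℝ) * (t / 2) ≤ t * ((d : ℝ) - 1) := by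
      have g1 : 0 ≤ (t : ℝ) * ((d : ℝ) / 2 - 1) := mul_nonneg htp.le (by linarith)
      have g2 : (t : ℝ) * ((d : ℝ) / 2 - 1) = t * ((d : ℝ) - 1) - d * (t / 2) := by ring
      linarith
    have h2 : (d : ℝ) * (t / 2) < d * (a₀ + 1) := by linarith
    have h3 := lt_of_mul_lt_mul_left h2 (by linarith)
    linarith
  have hRa : R + s ≤ a₀ := by
    have h1 : ((R + s : ℕ) : ℝ) ≤ a₀ := by
      push_cast
      have : ε * t ≤ 1 / 8 * t := by gcongr
      linarith
    exact_mod_cast h1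
  set u := a₀ - (R + s) with hu
  have hur : (t : ℝ) / 4 ≤ u := by
    rw [hu, Nat.cast_sub hRa]
    push_cast
    have : ε * t ≤ 1 / 8 * t := by gcongr
    linarith
  have h2u : ((u : ℕ) : ℝ) ≤ (m : ℝ) ^ u := by
    have h1 : u < 2 ^ u := Nat.lt_two_pow_self
    have h2 : ((u : ℕ) : ℝ) ≤ 2 ^ u := by exact_mod_cast h1.le
    exact h2.trans (pow_le_pow_left₀ (by norm_num) hm2 u)
  have hκ : (m : ℝ) ^ (a₀ + R) ≤ (d : ℝ) ^ (t - s) := by
    rw [← Real.log_le_log_iff (by positivity) (by positivity), Real.log_pow, Real.log_pow,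
      Nat.cast_sub hst]
    push_cast
    rw [← hlm, ← hld]
    have h1 : ((R : ℝ) + s) * (lm + ld) ≤ D₀ / d * t := by
      calc ((R : ℝ) + s) * (lm + ld) ≤ ε * t * (lm + ld) := by gcongr
        _ ≤ D₀ / d / (lm + ld) * t * (lm + ld) := by gcongr
        _ = D₀ / d * t := by field_simp
    have h2 : (a₀ : ℝ) ≤ t * ((d : ℝ) - 1) / d := by rw [le_div_iff₀ (by positivity)]; linarith
    have h3 : (a₀ : ℝ) * lm ≤ t * ((d : ℝ) - 1) / d * lm := by gcongr
    have h4 : D₀ / d * t = t * ld - t * ((d : ℝ) - 1) / d * lm := by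
      rw [hD₀]; field_simp
    have h5 : (R : ℝ) * lm + s * ld ≤ ((R : ℝ) + s) * (lm + ld) := by
      have g1 : 0 ≤ (R : ℝ) * ld := mul_nonneg hR0 (by linarith)
      have g2 : 0 ≤ (s : ℝ) * lm := mul_nonneg hs0 (by linarith)
      have g3 : ((R : ℝ) + s) * (lm + ld) = R * lm + s * ld + (R * ld + s * lm) := by ring
      linarith
    have h6 : ((a₀ : ℝ) + R) * lm = a₀ * lm + R * lm := by ring
    have h7 : ((t : ℝ) - s) * ld = t * ld - s * ld := by ring
    rw [h6, h7]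
    linarith
  have hlowG : 2 * G ≤ (m : ℝ) ^ u := by linarith
  set N₀ := m ^ u with hN₀
  have hN₀r : ((N₀ : ℕ) : ℝ) = (m : ℝ) ^ u := by rw [hN₀]; push_cast; rfl
  set η := K * (3 * 2 ^ A / (√(t : ℝ) * L ^ A)) with hη
  have hη0 : 0 ≤ η := by positivity
  have hcb' : ∀ N : ℕ, N₀ ≤ N → (cb (fun n : ℕ => Q n) N : ℝ) ≤ η * N := by
    intro N hN
    have hNr : (m : ℝ) ^ u ≤ N := by rw [← hN₀r]; exact_mod_cast hN
    have hNN₁ : N₁ ≤ N := by
      have : (N₁ : ℝ) ≤ N := by linarith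
      exact_mod_cast this
    refine (hcb N hNN₁).trans ?_
    have hN0 : (0 : ℝ) < N := by linarith
    have hlogN : (t : ℝ) / 8 ≤ Real.log N := by
      have h1 : Real.log ((m : ℝ) ^ u) ≤ Real.log N := Real.log_le_log (by positivity) hNr
      rw [Real.log_pow, ← hlm] at h1
      have h2 : (t : ℝ) / 4 * 0.5 ≤ u * lm := by gcongr
      linarith
    have hs3 : √(t : ℝ) / 3 ≤ √(Real.log N) := by
      have h1 : √((t : ℝ) / 9) ≤ √(Real.log N) := Real.sqrt_le_sqrt (by linarith)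
      rwa [Real.sqrt_div htp.le, show (9 : ℝ) = 3 ^ 2 by norm_num, Real.sqrt_sq (by norm_num)] at h1
    have hll : L / 2 ≤ Real.log (Real.log N) := by
      have h1 : Real.log ((t : ℝ) / 8) ≤ Real.log (Real.log N) := Real.log_le_log (by positivity) hlogN
      have h2 : Real.log (√(t : ℝ)) ≤ Real.log ((t : ℝ) / 8) := by
        apply Real.log_le_log (by positivity)
        have h8 : 8 ≤ √(t : ℝ) := by
          rw [Real.le_sqrt (by norm_num) htp.le]
          linarith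
        rw [le_div_iff₀ (by norm_num)]
        calc √(t : ℝ) * 8 ≤ √(t : ℝ) * √(t : ℝ) := by gcongr
          _ = t := hsq
      rw [Real.log_sqrt htp.le] at h2
      linarith
    have hden : √(t : ℝ) / 3 * (L / 2) ^ A ≤ √(Real.log N) * Real.log (Real.log N) ^ A := by
      gcongr
    have hden0 : 0 < √(t : ℝ) / 3 * (L / 2) ^ A := by positivity
    calc K * (N / (√(Real.log N) * Real.log (Real.log N) ^ A))
        ≤ K * (N / (√(t : ℝ) / 3 * (L / 2) ^ A)) := by gcongr
      _ = η * N := by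
          rw [hη, Real.div_rpow hL0.le (by norm_num)]
          field_simp
  have hst' := stage h hQ (x := x) (G := G) (C := C) (η := η) (p := p) (c' := c') (t := t) (s := s) (R := R)
    (N₀ := N₀) hp0 hp1 hρ hC0 hcc hx1 hx2 hs1 hst hRt (by rw [hG]; linarith) (by rw [hG]; linarith)
    (by rw [hG]; linarith) hRa hκ hlowG (by rw [hN₀r]) hη0 hcb'
  refine hst'.trans (ENNReal.ofReal_le_ofReal ?_)
  have hx0 : 0 ≤ x := le_trans (by positivity) hx1
  apply mul_le_mul_of_nonneg_right _ hx0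
  -- the three terms
  have hbpos : 0 < L ^ (-(1 + c)) := by positivity
  have t1 : 6 * G * ((2 * (R + s) + 1) * (s + 1)) * η ≤ 126 * G * K * 2 ^ A * L ^ (-(1 + c)) := by
    have a1 : (2 * ((R : ℝ) + s) + 1) ≤ 7 * (√(t : ℝ) * L ^ c) := by
      have : 1 ≤ √(t : ℝ) * L ^ c := one_le_mul_of_one_le_of_one_le hsq1 hLc1
      linarith
    have a2 : (s : ℝ) + 1 ≤ L ^ c := by linarith
    have e1 : L ^ c * L ^ c * (L ^ A)⁻¹ = L ^ (-(1 + c)) := by
      rw [← Real.rpow_neg hL0.le, ← Real.rpow_add hL0, ← Real.rpow_add hL0]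
      congr 1
      rw [hcdef]
      ring
    calc 6 * G * ((2 * (R + s) + 1) * (s + 1)) * η
        ≤ 6 * G * ((7 * (√(t : ℝ) * L ^ c)) * L ^ c) * η := by gcongr
      _ = 126 * G * K * 2 ^ A * (L ^ c * L ^ c * (L ^ A)⁻¹) := by
          rw [hη]
          field_simp
          ring
      _ = 126 * G * K * 2 ^ A * L ^ (-(1 + c)) := by rw [e1]
  have t2 : (c' / d) ^ s ≤ L ^ (-(1 + c)) := by
    have h1 : (c' / d) ^ s = Real.exp (-(s * q)) := by
      have : c' / d = Real.exp (-q) := by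
        rw [hq, Real.exp_neg, Real.exp_log (by positivity), inv_div]
      rw [this, ← Real.exp_nat_mul]
      congr 1; ring
    rw [h1, Real.rpow_def_of_pos hL0]
    apply Real.exp_le_exp.2
    have h2 : κ₀ * Real.log L * q ≤ s * q := by gcongr
    have h3 : κ₀ * Real.log L * q = b * Real.log L := by rw [hκ₀]; field_simp
    rw [h3] at h2
    rw [hb] at h2
    linarith
  have t3 : Real.exp (-((R : ℝ) ^ 2 / t)) ≤ L ^ (-(1 + c)) := by
    rw [Real.rpow_def_of_pos hL0]
    apply Real.exp_le_exp.2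
    have h1 : L ^ (2 * c) ≤ (R : ℝ) ^ 2 / t := by
      rw [le_div_iff₀ htp]
      calc L ^ (2 * c) * t = (√(t : ℝ) * L ^ c) ^ 2 := by
            rw [mul_pow, Real.sq_sqrt htp.le, ← Real.rpow_natCast (L ^ c), ← Real.rpow_mul hL0.le]
            rw [mul_comm 2 c]
            push_cast
            ring
        _ ≤ (R : ℝ) ^ 2 := by gcongr
    rw [hb] at f3
    linarith
  have t23 : ((d : ℝ) + 1) * (A₂ * (c' / d) ^ s + 2 * Real.exp (-((R : ℝ) ^ 2 / t))) ≤
      (d + 1) * (A₂ + 2) * L ^ (-(1 + c)) := by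
    have h1 : A₂ * (c' / d) ^ s ≤ A₂ * L ^ (-(1 + c)) := by gcongr
    have h2 : A₂ * (c' / d) ^ s + 2 * Real.exp (-((R : ℝ) ^ 2 / t)) ≤ (A₂ + 2) * L ^ (-(1 + c)) := by
      linarith
    calc ((d : ℝ) + 1) * (A₂ * (c' / d) ^ s + 2 * Real.exp (-((R : ℝ) ^ 2 / t)))
        ≤ ((d : ℝ) + 1) * ((A₂ + 2) * L ^ (-(1 + c))) := by gcongr
      _ = _ := by ring
  linarith

end Pool.Agent.H620.Gen
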