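import Pool.Agent.H620.Gen.Thin
import Pool.Agent.H620.Gen.Near
import Pool.Graph.R_seed8.H499R2.NDCor
import Pool.Graph.R_pool_sql_team_seeded_3997aac3.Q158.Pair.Main

/-! Sets of integers which are invariant under the `3x+1` map, on one side of `0`. -/

set_option autoImplicit false

namespace Pool.Agent.H620.Gen

open Finset Filter Topology
open Pool.Agent.H620.Bdry (cb D)
open Pool.Agent.H499R2.ND (Inv dens_side HD_ncard one_pos one_lt)

theorem side_T {s : ℤ} (hs : s = 1 ∨ s = -1) {S : Set ℤ} (hS : Inv 1 S) (x : ℤ) :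
    s * x ∈ S ↔ s * (T 2 3 (fun _ => -s) x) ∈ S := by
  have h := hS (s * x)
  rw [h]
  have : Pool.Agent.H499R2.ND.Td 1 (s * x) = s * (T 2 3 (fun _ => -s) x) := by
    unfold Pool.Agent.H499R2.ND.Td T
    rcases hs with rfl | rfl
    · by_cases h2 : x % 2 = 0
      · rw [if_pos (by omega), if_pos (by omega)]; push_cast; omega
      · rw [if_neg (by omega), if_neg (by omega)]; push_cast; omega
    · by_cases h2 : x % 2 = 0
      · rw [if_pos (by omega), if_pos (by omega)]; push_cast; omega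
      · rw [if_neg (by omega), if_neg (by omega)]; push_cast; omega
  rw [this]

theorem side_adm {s : ℤ} (hs : s = 1 ∨ s = -1) : Adm 2 3 (fun _ => -s) := by
  refine ⟨by norm_num, by norm_num, by decide, ?_⟩
  intro j h1 h2
  have : j = 1 := by push_cast at h2; omega
  subst this
  rcases hs with rfl | rfl <;> decide

/-- The boundary of an invariant set is not thin, on each side where the set is nontrivial. -/
theorem side_not_thin {s : ℤ} (hs : s = 1 ∨ s = -1) {S : Set ℤ} (hS : Inv 1 S) (h1 : ∃ a, 0 < s * a ∧ a ∈ S)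
    (h2 : ∃ a, 0 < s * a ∧ a ∉ S) {A : ℝ} (hA1 : 1 < A) (K : ℝ)
    (h : ∀ᶠ N : ℕ in atTop, (cb (fun n : ℕ => s * (n : ℤ) ∈ S) N : ℝ) ≤ K * hA A N) : False := by
  obtain ⟨l, hl0, hl1, hl⟩ := dens_side odd_one isCoprime_one_left hs hS
  obtain ⟨a, ha, haS⟩ := h1
  obtain ⟨b, hb, hbS⟩ := h2
  have hl0' := one_pos hs hS haS ha hl
  have hl1' := one_lt hs hS hbS hb hl
  have hss : s * s = 1 := by rcases hs with rfl | rfl <;> norm_num
  refine not_thin (d := 2) (m := 3) (r := fun _ => -s) (side_adm hs) (by norm_num)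
    (Q := fun x => s * x ∈ S) (side_T hs hS) hl0' hl1' ?_ hA1 K h
  refine (HD_ncard hs hl).congr fun N => ?_
  congr 2
  unfold D
  have : {n : ℤ | 0 < s * n ∧ s * n ≤ N ∧ n ∈ S} =
      (fun n : ℕ => s * (n : ℤ)) '' {n : ℕ | 1 ≤ n ∧ n ≤ N ∧ s * (n : ℤ) ∈ S} := by
    ext x
    simp only [Set.mem_ofPred_eq, Set.mem_image]
    constructor
    · rintro ⟨g1, g2, g3⟩
      have e : ((s * x).toNat : ℤ) = s * x := Int.toNat_of_nonneg g1.le
      have e2 : s * ((s * x).toNat : ℤ) = x := by rw [e, ← mul_assoc, hss, one_mul]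
      refine ⟨(s * x).toNat, ⟨by omega, by omega, ?_⟩, e2⟩
      rw [e2]; exact g3
    · rintro ⟨n, ⟨g1, g2, g3⟩, rfl⟩
      have e : s * (s * (n : ℤ)) = n := by rw [← mul_assoc, hss, one_mul]
      refine ⟨by rw [e]; exact_mod_cast g1, by rw [e]; exact_mod_cast g2, g3⟩
  rw [this, Set.ncard_image_of_injective]
  intro x y hxy
  have h3 : s * (s * (x : ℤ)) = s * (s * (y : ℤ)) := by simp only at hxy; rw [hxy]
  rw [← mul_assoc, ← mul_assoc, hss, one_mul, one_mul] at h3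
  exact_mod_cast h3

/-- The upper bound on both sides. -/
theorem side_upper : ∃ K : ℝ, 0 ≤ K ∧ ∀ (s : ℤ), (s = 1 ∨ s = -1) → ∀ S : Set ℤ, Inv 1 S → ∀ N : ℕ, 2 ≤ N →
    ({n : ℕ | 1 ≤ n ∧ n ≤ N ∧ ¬ (s * (n : ℤ) ∈ S ↔ s * ((n + 1 : ℕ) : ℤ) ∈ S)}.ncard : ℝ) ≤
      K * (N / √(Real.log N)) := by
  obtain ⟨C, hC, h⟩ := Pool.Agent.Q158.Pair.invariant
  refine ⟨C * (1 + √(Real.log 3)), by positivity, fun s hs S hS N hN => ?_⟩
  have hinv : ∀ x : ℤ, Pool.Agent.Q158.Pair.T x ∈ S ↔ x ∈ S := by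
    intro x
    have := hS x
    rw [this]
    have e : Pool.Agent.Q158.Pair.T x = Pool.Agent.H499R2.ND.Td 1 x := by
      unfold Pool.Agent.Q158.Pair.T Pool.Agent.H499R2.ND.Td
      split_ifs <;> rfl
    rw [e]
  rcases hs with rfl | rfl
  · have h1 := h S hinv 0 0 0 0 0 1 1 N hN
    have hset : {n : ℤ | 1 ≤ n ∧ n < 1 + (N : ℤ) ∧ ¬ ((2 : ℤ) ^ 0 * 3 ^ 0 * n + 0 ∈ S ↔ (2 : ℤ) ^ 0 * 3 ^ 0 * n + 1 ∈ S)} =
        (fun n : ℕ => (n : ℤ)) '' {n : ℕ | 1 ≤ n ∧ n ≤ N ∧ ¬ ((1 : ℤ) * (n : ℤ) ∈ S ↔ 1 * ((n + 1 : ℕ) : ℤ) ∈ S)} := by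
      ext x
      simp only [pow_zero, one_mul, add_zero, Set.mem_ofPred_eq, Set.mem_image]
      constructor
      · rintro ⟨h2, h3, h4⟩
        obtain ⟨n, rfl⟩ : ∃ n : ℕ, x = n := ⟨x.toNat, by omega⟩
        refine ⟨n, ⟨by omega, by omega, ?_⟩, rfl⟩
        push_cast
        exact h4
      · rintro ⟨n, ⟨h2, h3, h4⟩, rfl⟩
        refine ⟨by omega, by omega, ?_⟩
        push_cast at h4
        exact h4
    rw [hset, Set.ncard_image_of_injective _ Nat.cast_injective] at h1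
    refine h1.trans (le_of_eq ?_)
    norm_num
    ring
  · have h1 := h S hinv 0 0 0 0 0 1 (-N - 1) N hN
    have hset : {n : ℤ | -(N : ℤ) - 1 ≤ n ∧ n < -(N : ℤ) - 1 + (N : ℤ) ∧
        ¬ ((2 : ℤ) ^ 0 * 3 ^ 0 * n + 0 ∈ S ↔ (2 : ℤ) ^ 0 * 3 ^ 0 * n + 1 ∈ S)} =
        (fun n : ℕ => -((n : ℤ) + 1)) '' {n : ℕ | 1 ≤ n ∧ n ≤ N ∧ ¬ ((-1 : ℤ) * (n : ℤ) ∈ S ↔ (-1 : ℤ) * ((n + 1 : ℕ) : ℤ) ∈ S)} := by
      ext x
      simp only [pow_zero, one_mul, add_zero, Set.mem_ofPred_eq, Set.mem_image]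
      constructor
      · rintro ⟨h2, h3, h4⟩
        obtain ⟨n, rfl⟩ : ∃ n : ℕ, x = -((n : ℤ) + 1) := ⟨(-x - 1).toNat, by omega⟩
        refine ⟨n, ⟨by omega, by omega, ?_⟩, rfl⟩
        push_cast
        have e1 : -((n : ℤ) + 1) + 1 = -1 * n := by ring
        have e2 : -((n : ℤ) + 1) = -1 * (n + 1) := by ring
        rw [e1, e2] at h4
        exact fun g => h4 g.symm
      · rintro ⟨n, ⟨h2, h3, h4⟩, rfl⟩
        refine ⟨by omega, by omega, ?_⟩
        push_cast at h4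
        have e1 : -((n : ℤ) + 1) + 1 = -1 * n := by ring
        have e2 : -((n : ℤ) + 1) = -1 * (n + 1) := by ring
        rw [e1, e2]
        exact fun g => h4 g.symm
    rw [hset, Set.ncard_image_of_injective] at h1
    · refine h1.trans (le_of_eq ?_)
      norm_num
      ring
    · intro x y hxy
      simp only at hxy
      omega

/-- Invariant sets are not near to morphic sets. -/
theorem side_not_near {s : ℤ} (hs : s = 1 ∨ s = -1) {S : Set ℤ} (hS : Inv 1 S) (h1 : ∃ a, 0 < s * a ∧ a ∈ S)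
    (h2 : ∃ a, 0 < s * a ∧ a ∉ S) {A : ℝ} (hA1 : 1 < A) {w : ℕ → Prop} (hw : Morph.IsMorphic w) (K : ℝ)
    (h : ∀ᶠ N : ℕ in atTop, ({n : ℕ | 1 ≤ n ∧ n ≤ N ∧ ¬ (s * (n : ℤ) ∈ S ↔ w n)}.ncard : ℝ) ≤ K * hA A N) :
    False := by
  obtain ⟨K', _, hK'⟩ := side_upper
  exact not_near (P := fun n : ℕ => s * (n : ℤ) ∈ S) (by linarith) (hK' s hs S hS)
    (fun K => side_not_thin hs hS h1 h2 hA1 K) hw K h

end Pool.Agent.H620.Gen
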