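import Pool.Agent.H620.Gen.Moment
import Pool.Agent.H620.Bdry.Meas

/-! One stage: a property which is invariant under the map, at `y` and at `m ^ a / d ^ t * y`. -/

set_option autoImplicit false

namespace Pool.Agent.H620.Gen

open Finset MeasureTheory
open Pool.Agent.H620.Bdry (W Bd cb Dset Near vol_Near const_of_far' vol_floor)

variable {d m : ℕ} {r : ℤ → ℤ}

theorem vol_blocks' (B : Set ℕ) [DecidablePred (· ∈ B)] (d t : ℕ) (x E : ℝ) (hd : 1 ≤ d)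
    (hx1 : (d : ℝ) ^ t ≤ x) (hx2 : x < (d : ℝ) ^ (t + 1))
    (hB : ∀ c : ℕ, (((Ico c (c + d ^ t)).filter (· ∈ B)).card : ℝ) ≤ E * (d : ℝ) ^ t) :
    volume {y : ℝ | x ≤ y ∧ y ≤ 2 * x ∧ ⌊y⌋₊ ∈ B} ≤ ENNReal.ofReal (((d : ℝ) + 1) * E * x) := by
  have hd1 : (1 : ℝ) ≤ d := by exact_mod_cast hd
  have hdt : (1 : ℝ) ≤ (d : ℝ) ^ t := one_le_pow₀ hd1
  have hE : 0 ≤ E := by
    have h := (Nat.cast_nonneg _).trans (hB 0)
    by_contra hcon
    push Not at hcon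
    have : E * (d : ℝ) ^ t < 0 := mul_neg_of_neg_of_pos hcon (by positivity)
    linarith
  have hx0 : 0 < x := lt_of_lt_of_le (by positivity) hx1
  set c := ⌊x⌋₊ with hc
  have hblocks : ∀ k : ℕ, (((Ico c (c + k * d ^ t)).filter (· ∈ B)).card : ℝ) ≤ k * (E * (d : ℝ) ^ t) := by
    intro k
    induction k with
    | zero => simp
    | succ k ih =>
      have e : (Ico c (c + (k + 1) * d ^ t)).filter (· ∈ B) =
          ((Ico c (c + k * d ^ t)).filter (· ∈ B)) ∪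
            ((Ico (c + k * d ^ t) (c + k * d ^ t + d ^ t)).filter (· ∈ B)) := by
        rw [← filter_union]
        congr 1
        rw [Ico_union_Ico_eq_Ico (Nat.le_add_right _ _) (Nat.le_add_right _ _)]
        congr 1
        ring
      have h1 : (((Ico c (c + (k + 1) * d ^ t)).filter (· ∈ B)).card : ℝ) ≤
          (((Ico c (c + k * d ^ t)).filter (· ∈ B)).card : ℝ) +
            (((Ico (c + k * d ^ t) (c + k * d ^ t + d ^ t)).filter (· ∈ B)).card : ℝ) := by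
        rw [e]
        exact_mod_cast card_union_le _ _
      have h2 := hB (c + k * d ^ t)
      push_cast
      linarith
  set F : Finset ℕ := (Ico c (c + (d + 1) * d ^ t)).filter (· ∈ B) with hF
  have hsub : {y : ℝ | x ≤ y ∧ y ≤ 2 * x ∧ ⌊y⌋₊ ∈ B} ⊆ {y : ℝ | 0 ≤ y ∧ ⌊y⌋₊ ∈ F} := by
    rintro y ⟨h1, h2, h3⟩
    refine ⟨hx0.le.trans h1, ?_⟩
    have h4 : c ≤ ⌊y⌋₊ := Nat.floor_mono h1
    have h5 : ⌊y⌋₊ < c + (d + 1) * d ^ t := by
      rw [Nat.floor_lt (hx0.le.trans h1)]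
      have h6 : x < c + 1 := Nat.lt_floor_add_one x
      push_cast
      rw [pow_succ] at hx2
      nlinarith
    rw [hF, mem_filter, mem_Ico]
    exact ⟨⟨h4, h5⟩, h3⟩
  have hcard : (F.card : ℝ) ≤ ((d : ℝ) + 1) * E * x := by
    have h1 := hblocks (d + 1)
    rw [hF]
    refine h1.trans ?_
    push_cast
    have : E * (d : ℝ) ^ t ≤ E * x := mul_le_mul_of_nonneg_left hx1 hE
    nlinarith
  calc volume {y : ℝ | x ≤ y ∧ y ≤ 2 * x ∧ ⌊y⌋₊ ∈ B} ≤ volume {y : ℝ | 0 ≤ y ∧ ⌊y⌋₊ ∈ F} := measure_mono hsub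
    _ ≤ ENNReal.ofReal F.card := vol_floor F x
    _ ≤ ENNReal.ofReal (((d : ℝ) + 1) * E * x) := ENNReal.ofReal_le_ofReal hcard

theorem inv_iter {Q : ℤ → Prop} (hQ : ∀ x, Q x ↔ Q (T d m r x)) (n : ℤ) (t : ℕ) :
    Q n ↔ Q ((T d m r)^[t] n) := by
  induction t with
  | zero => rfl
  | succ t ih => rw [Function.iterate_succ_apply', ih]; exact hQ _

/-- From `z` to `d z`. -/
theorem level_step (h : Adm d m r) {Q : ℤ → Prop} (hQ : ∀ x, Q x ↔ Q (T d m r x)) {z G : ℝ} (hz : 0 ≤ z)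
    (hG : (d : ℝ) ≤ G) (h2 : ∀ k : ℕ, k ∈ Bd (fun n : ℕ => Q n) → ¬ |d * z - k| ≤ G) :
    W (fun n : ℕ => Q n) z ↔ W (fun n : ℕ => Q n) (d * z) := by
  have hd2 : (2 : ℝ) ≤ d := by exact_mod_cast h.hd
  have hd0 : (0 : ℤ) < d := by exact_mod_cast (by have := h.hd; omega : 0 < d)
  set v := ⌊z⌋₊ with hv
  have hv2 : (v : ℝ) ≤ z := Nat.floor_le hz
  have hv3 : z < v + 1 := Nat.lt_floor_add_one z
  have e1 : Q (v : ℤ) ↔ Q ((d * v : ℕ) : ℤ) := by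
    have h1 := hQ ((d * v : ℕ) : ℤ)
    have : T d m r ((d * v : ℕ) : ℤ) = v := by
      unfold T
      push_cast
      rw [if_pos (Dvd.intro _ rfl), Int.mul_ediv_cancel_left _ hd0.ne']
    rw [this] at h1
    exact h1.symm
  have hdz : 0 ≤ d * z := by positivity
  have h4 : ((⌊d * z⌋₊ : ℕ) : ℝ) ≤ d * z := Nat.floor_le hdz
  have h5 : d * z < (⌊d * z⌋₊ : ℕ) + 1 := Nat.lt_floor_add_one _
  have e2 : Q ((d * v : ℕ) : ℤ) ↔ Q ((⌊d * z⌋₊ : ℕ) : ℤ) := by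
    apply const_of_far' (P := fun n : ℕ => Q n) h2
    · push_cast; nlinarith
    · push_cast; nlinarith
    · linarith
    · linarith
  show Q (v : ℤ) ↔ Q ((⌊d * z⌋₊ : ℕ) : ℤ)
  rw [e1, e2]

/-- From `z` to `m z`. -/
theorem mult_step (h : Adm d m r) {Q : ℤ → Prop} (hQ : ∀ x, Q x ↔ Q (T d m r x)) {z G : ℝ} (hGz : G ≤ z)
    (hG : (d : ℝ) ≤ G) (hG' : (m : ℝ) + |((T d m r 1 : ℤ) : ℝ)| ≤ G)
    (h2 : ∀ k : ℕ, k ∈ Bd (fun n : ℕ => Q n) → ¬ |d * z - k| ≤ G)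
    (h3 : ∀ k : ℕ, k ∈ Bd (fun n : ℕ => Q n) → ¬ |m * z - k| ≤ G) :
    W (fun n : ℕ => Q n) z ↔ W (fun n : ℕ => Q n) (m * z) := by
  have hd2 : (2 : ℝ) ≤ d := by exact_mod_cast h.hd
  have hm2 : (2 : ℝ) ≤ m := by exact_mod_cast h.hm
  have hd0 : (0 : ℤ) < d := by exact_mod_cast (by have := h.hd; omega : 0 < d)
  have hz : 0 ≤ z := by linarith
  set v := ⌊z⌋₊ with hv
  have hv2 : (v : ℝ) ≤ z := Nat.floor_le hz
  have hv3 : z < v + 1 := Nat.lt_floor_add_one z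
  have e1 : Q (v : ℤ) ↔ Q ((d * v : ℕ) : ℤ) := by
    have h1 := hQ ((d * v : ℕ) : ℤ)
    have : T d m r ((d * v : ℕ) : ℤ) = v := by
      unfold T
      push_cast
      rw [if_pos (Dvd.intro _ rfl), Int.mul_ediv_cancel_left _ hd0.ne']
    rw [this] at h1
    exact h1.symm
  have e2 : Q ((d * v : ℕ) : ℤ) ↔ Q ((d * v + 1 : ℕ) : ℤ) := by
    apply const_of_far' (P := fun n : ℕ => Q n) h2
    · push_cast; nlinarith
    · push_cast; nlinarith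
    · push_cast; nlinarith
    · push_cast; nlinarith
  have hT1 : T d m r ((d * v + 1 : ℕ) : ℤ) = T d m r 1 + m * v := by
    have h1 := T_add h 1 (v : ℤ)
    have h2 : ¬ (d : ℤ) ∣ 1 := by
      intro h3
      have := Int.le_of_dvd one_pos h3
      have := h.hd
      omega
    rw [if_neg h2] at h1
    rw [← h1]
    congr 1
    push_cast
    ring
  have hpos : 0 ≤ T d m r 1 + m * v := by
    have h6 : (0 : ℝ) ≤ ((T d m r 1 + m * v : ℤ) : ℝ) := by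
      push_cast
      have h7 := neg_abs_le ((T d m r 1 : ℤ) : ℝ)
      nlinarith
    exact_mod_cast h6
  set k := (T d m r 1 + m * v).toNat with hk
  have hk' : ((k : ℕ) : ℤ) = T d m r 1 + m * v := Int.toNat_of_nonneg hpos
  have hkr : ((k : ℕ) : ℝ) = ((T d m r 1 : ℤ) : ℝ) + m * v := by exact_mod_cast hk'
  have e3 : Q ((d * v + 1 : ℕ) : ℤ) ↔ Q ((k : ℕ) : ℤ) := by
    rw [hk', ← hT1]
    exact hQ _
  have hmz : 0 ≤ m * z := by positivity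
  have h4 : ((⌊m * z⌋₊ : ℕ) : ℝ) ≤ m * z := Nat.floor_le hmz
  have h5 : m * z < (⌊m * z⌋₊ : ℕ) + 1 := Nat.lt_floor_add_one _
  have e4 : Q ((k : ℕ) : ℤ) ↔ Q ((⌊m * z⌋₊ : ℕ) : ℤ) := by
    have h7 := neg_abs_le ((T d m r 1 : ℤ) : ℝ)
    have h8 := le_abs_self ((T d m r 1 : ℤ) : ℝ)
    apply const_of_far' (P := fun n : ℕ => Q n) h3
    · rw [hkr]; nlinarith
    · rw [hkr]; nlinarith
    · linarith
    · linarith
  show Q (v : ℤ) ↔ Q ((⌊m * z⌋₊ : ℕ) : ℤ)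
  rw [e1, e2, e3, e4]

theorem nz_mono (d m : ℕ) (r : ℤ → ℤ) (n : ℤ) (t i : ℕ) :
    nz d m r t n ≤ nz d m r (t + i) n ∧ nz d m r (t + i) n ≤ nz d m r t n + i := by
  induction i with
  | zero => exact ⟨le_rfl, le_rfl⟩
  | succ i ih =>
    rw [← add_assoc]
    have e : nz d m r (t + i + 1) n =
      nz d m r (t + i) n + (if (d : ℤ) ∣ (T d m r)^[t + i] n then 0 else 1) := rfl
    rw [e]
    split_ifs <;> omega

/-- The transfer for one real number. -/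
theorem transfer (h : Adm d m r) {Q : ℤ → Prop} (hQ : ∀ x, Q x ↔ Q (T d m r x)) {x y G C : ℝ} {t s R a₀ : ℕ}
    (hx : 1 ≤ x) (hs : 1 ≤ s) (hst : s ≤ t) (hG : (d : ℝ) ≤ G)
    (hG' : (m : ℝ) + |((T d m r 1 : ℤ) : ℝ)| ≤ G) (hC : C + 1 ≤ G)
    (hR : R + s ≤ a₀) (hκ : (m : ℝ) ^ (a₀ + R) ≤ (d : ℝ) ^ (t - s))
    (hlow : 2 * G ≤ (m : ℝ) ^ (a₀ - (R + s)) / (d : ℝ) ^ t * x) (hy1 : x ≤ y)
    (hfar : ∀ a, a₀ - (R + s) ≤ a → a ≤ a₀ + (R + s) → ∀ τ, t - s ≤ τ → τ ≤ t →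
      ∀ k : ℕ, k ∈ Bd (fun n : ℕ => Q n) → ¬ |(m : ℝ) ^ a / (d : ℝ) ^ τ * y - k| ≤ G)
    (ho : ¬ Stay d m r C (t - s) s (⌊y⌋₊ : ℕ))
    (ha1 : a₀ ≤ nz d m r t (⌊y⌋₊ : ℕ) + R) (ha2 : nz d m r t (⌊y⌋₊ : ℕ) ≤ a₀ + R) :
    W (fun n : ℕ => Q n) y ↔ W (fun n : ℕ => Q n) ((m : ℝ) ^ a₀ / (d : ℝ) ^ t * y) := by
  have hd2 : (2 : ℝ) ≤ d := by exact_mod_cast h.hd
  have hm2 : (2 : ℝ) ≤ m := by exact_mod_cast h.hm
  have hy0 : 0 ≤ y := by linarith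
  set n := ⌊y⌋₊ with hn
  have hny : (n : ℝ) ≤ y := Nat.floor_le hy0
  have hny' : y < n + 1 := Nat.lt_floor_add_one y
  unfold Stay at ho
  push Not at ho
  obtain ⟨i, hi, hoff⟩ := ho
  set τ := t - s + i with hτ
  have hτt : τ ≤ t := by omega
  set a := nz d m r τ n with ha
  have hmono := nz_mono d m r n τ (t - τ)
  rw [Nat.add_sub_cancel' hτt] at hmono
  have haL : a₀ - (R + s) ≤ a := by omega
  have haU : a ≤ a₀ + R := by omega
  -- slopes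
  have hbig : ∀ b, a₀ - (R + s) ≤ b → ∀ u, u ≤ t → 2 * G ≤ (m : ℝ) ^ b / (d : ℝ) ^ u * y := by
    intro b hb u hu
    calc 2 * G ≤ (m : ℝ) ^ (a₀ - (R + s)) / (d : ℝ) ^ t * x := hlow
      _ ≤ (m : ℝ) ^ b / (d : ℝ) ^ u * y := by
        gcongr
        · linarith
        · linarith
  have hG0 : 0 < G := by linarith
  -- the step to the time `τ`
  have e1 : Q (n : ℤ) ↔ Q ((T d m r)^[τ] n) := inv_iter hQ n τ
  have hf := T_iter_formula h τ n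
  rw [← ha] at hf
  have hsl1 : (m : ℝ) ^ a / (d : ℝ) ^ τ ≤ 1 := by
    rw [div_le_one (by positivity)]
    calc (m : ℝ) ^ a ≤ (m : ℝ) ^ (a₀ + R) := pow_le_pow_right₀ (by linarith) haU
      _ ≤ (d : ℝ) ^ (t - s) := hκ
      _ ≤ (d : ℝ) ^ τ := pow_le_pow_right₀ (by linarith) (by omega)
  have hsl0 : (0 : ℝ) < (m : ℝ) ^ a / (d : ℝ) ^ τ := by positivity
  have h8 : (m : ℝ) ^ a / (d : ℝ) ^ τ * n ≤ (m : ℝ) ^ a / (d : ℝ) ^ τ * y :=
    mul_le_mul_of_nonneg_left hny hsl0.le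
  have h9 : (m : ℝ) ^ a / (d : ℝ) ^ τ * y ≤ (m : ℝ) ^ a / (d : ℝ) ^ τ * n + 1 := by
    calc (m : ℝ) ^ a / (d : ℝ) ^ τ * y ≤ (m : ℝ) ^ a / (d : ℝ) ^ τ * (n + 1) :=
          mul_le_mul_of_nonneg_left hny'.le hsl0.le
      _ = (m : ℝ) ^ a / (d : ℝ) ^ τ * n + (m : ℝ) ^ a / (d : ℝ) ^ τ := by ring
      _ ≤ _ := by linarith
  have hoff' := abs_le.1 hoff
  have hby := hbig a haL τ hτt
  have hTpos : 0 ≤ (T d m r)^[τ] (n : ℤ) := by
    have h6 : (0 : ℝ) ≤ (((T d m r)^[τ] (n : ℤ) : ℤ) : ℝ) := by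
      rw [hf]
      push_cast
      linarith [hoff'.1]
    exact_mod_cast h6
  set k := ((T d m r)^[τ] (n : ℤ)).toNat with hk
  have hk' : ((k : ℕ) : ℤ) = (T d m r)^[τ] (n : ℤ) := Int.toNat_of_nonneg hTpos
  have hkr : ((k : ℕ) : ℝ) = (m : ℝ) ^ a / (d : ℝ) ^ τ * n + off d m r τ n := by
    have : ((k : ℕ) : ℝ) = (((T d m r)^[τ] (n : ℤ) : ℤ) : ℝ) := by exact_mod_cast hk'
    rw [this, hf]
    push_cast
    rfl
  have e2 : Q ((k : ℕ) : ℤ) ↔ W (fun n : ℕ => Q n) ((m : ℝ) ^ a / (d : ℝ) ^ τ * y) := by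
    have hz0 : 0 ≤ (m : ℝ) ^ a / (d : ℝ) ^ τ * y := by positivity
    have h6 := Nat.floor_le hz0
    have h7 := Nat.lt_floor_add_one ((m : ℝ) ^ a / (d : ℝ) ^ τ * y)
    apply const_of_far' (P := fun n : ℕ => Q n) (hfar a haL (by omega) τ (by omega) hτt)
    · rw [hkr]; linarith [hoff'.1]
    · rw [hkr]; linarith [hoff'.2]
    · linarith
    · linarith
  -- the chain of the levels
  have e3 : ∀ u, τ + u ≤ t → (W (fun n : ℕ => Q n) ((m : ℝ) ^ a / (d : ℝ) ^ (τ + u) * y) ↔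
      W (fun n : ℕ => Q n) ((m : ℝ) ^ a / (d : ℝ) ^ τ * y)) := by
    intro u
    induction u with
    | zero => intro _; rw [add_zero]
    | succ u ih =>
      intro hu
      rw [← ih (by omega)]
      have e : (d : ℝ) * ((m : ℝ) ^ a / (d : ℝ) ^ (τ + (u + 1)) * y) = (m : ℝ) ^ a / (d : ℝ) ^ (τ + u) * y := by
        rw [← add_assoc, pow_succ]
        field_simp
      rw [← e]
      apply level_step h hQ (by positivity) hG
      rw [e]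
      exact hfar a haL (by omega) (τ + u) (by omega) (by omega)
  -- the chain of the slopes
  have e4 : ∀ j, a₀ - (R + s) + j ≤ a₀ + (R + s) →
      (W (fun n : ℕ => Q n) ((m : ℝ) ^ (a₀ - (R + s) + j) / (d : ℝ) ^ t * y) ↔
      W (fun n : ℕ => Q n) ((m : ℝ) ^ (a₀ - (R + s)) / (d : ℝ) ^ t * y)) := by
    intro j
    induction j with
    | zero => intro _; rw [add_zero]
    | succ j ih =>
      intro hj
      rw [← ih (by omega)]
      have e : (m : ℝ) ^ (a₀ - (R + s) + (j + 1)) / (d : ℝ) ^ t * y =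
          m * ((m : ℝ) ^ (a₀ - (R + s) + j) / (d : ℝ) ^ t * y) := by
        rw [← add_assoc, pow_succ]; ring
      have e' : (d : ℝ) * ((m : ℝ) ^ (a₀ - (R + s) + j) / (d : ℝ) ^ t * y) =
          (m : ℝ) ^ (a₀ - (R + s) + j) / (d : ℝ) ^ (t - 1) * y := by
        obtain ⟨t', rfl⟩ : ∃ t', t = t' + 1 := ⟨t - 1, by omega⟩
        rw [Nat.add_sub_cancel, pow_succ]
        field_simp
      rw [e]
      refine (mult_step h hQ ?_ hG hG' ?_ ?_).symm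
      · have := hbig (a₀ - (R + s) + j) (by omega) t le_rfl
        linarith
      · rw [e']
        exact hfar _ (by omega) (by omega) (t - 1) (by omega) (by omega)
      · rw [← e]
        exact hfar _ (by omega) (by omega) t (by omega) le_rfl
  have e5 : ∀ b, a₀ - (R + s) ≤ b → b ≤ a₀ + (R + s) →
      (W (fun n : ℕ => Q n) ((m : ℝ) ^ b / (d : ℝ) ^ t * y) ↔
      W (fun n : ℕ => Q n) ((m : ℝ) ^ (a₀ - (R + s)) / (d : ℝ) ^ t * y)) := by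
    intro b h1 h2
    have := e4 (b - (a₀ - (R + s))) (by omega)
    rwa [Nat.add_sub_cancel' h1] at this
  have e6 := e3 (t - τ) (by omega)
  rw [Nat.add_sub_cancel' hτt] at e6
  have e7 : W (fun n : ℕ => Q n) y ↔ Q ((k : ℕ) : ℤ) := by
    rw [hk']
    exact e1
  rw [e7, e2, ← e6, e5 a haL (by omega), ← e5 a₀ (by omega) (by omega)]

theorem vol_Near' {P : ℕ → Prop} {l H x η : ℝ} {N₀ : ℕ} (hl : 0 < l) (hH : 0 ≤ H) (hη : 0 ≤ η)
    (hcb : ∀ N : ℕ, N₀ ≤ N → (cb P N : ℝ) ≤ η * N) (h1 : H ≤ l * x) (h2 : (N₀ : ℝ) ≤ l * x) :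
    volume (Near P l H x) ≤ ENNReal.ofReal (6 * H * η * x) := by
  refine (vol_Near P l H x hl hH).trans (ENNReal.ofReal_le_ofReal ?_)
  have h0 : 0 ≤ 2 * l * x + H := by nlinarith
  have h3 : N₀ ≤ ⌊2 * l * x + H⌋₊ := Nat.le_floor (by nlinarith)
  have h4 := hcb _ h3
  have h5 := Nat.floor_le h0
  calc (cb P ⌊2 * l * x + H⌋₊ : ℝ) * (2 * H / l) ≤ (η * (3 * (l * x))) * (2 * H / l) := by
        apply mul_le_mul_of_nonneg_right _ (by positivity)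
        refine h4.trans (mul_le_mul_of_nonneg_left ?_ hη)
        linarith
    _ = 6 * H * η * x := by field_simp; ring

/-- **One stage.** -/
theorem stage (h : Adm d m r) {Q : ℤ → Prop} (hQ : ∀ x, Q x ↔ Q (T d m r x)) {x G C η p c' : ℝ}
    {t s R N₀ : ℕ} (hp0 : 0 < p) (hp1 : p ≤ 1) (hρ : cst d m p < d) (hC0 : 0 < C)
    (hc' : cst d m p + KK d r p / C ^ p ≤ c')
    (hx1 : (d : ℝ) ^ t ≤ x) (hx2 : x < (d : ℝ) ^ (t + 1)) (hs : 1 ≤ s) (hst : s ≤ t)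
    (hRt : (R : ℝ) * ((d : ℝ) - 1) ≤ t)
    (hG : (d : ℝ) ≤ G) (hG' : (m : ℝ) + |((T d m r 1 : ℤ) : ℝ)| ≤ G) (hC : C + 1 ≤ G)
    (hR : R + s ≤ t * (d - 1) / d) (hκ : (m : ℝ) ^ (t * (d - 1) / d + R) ≤ (d : ℝ) ^ (t - s))
    (hlow : 2 * G ≤ (m : ℝ) ^ (t * (d - 1) / d - (R + s)))
    (hN : (N₀ : ℝ) ≤ (m : ℝ) ^ (t * (d - 1) / d - (R + s))) (hη : 0 ≤ η)
    (hcb : ∀ N : ℕ, N₀ ≤ N → (cb (fun n : ℕ => Q n) N : ℝ) ≤ η * N) :
    volume (Dset (fun n : ℕ => Q n) x ((m : ℝ) ^ (t * (d - 1) / d) / (d : ℝ) ^ t)) ≤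
      ENNReal.ofReal ((6 * G * ((2 * (R + s) + 1) * (s + 1)) * η + ((d : ℝ) + 1) *
        (KK d r p / (d - cst d m p) / C ^ p * (c' / d) ^ s + 2 * Real.exp (-((R : ℝ) ^ 2 / t)))) * x) := by
  classical
  have hd2 : (2 : ℝ) ≤ d := by exact_mod_cast h.hd
  have hdn := h.hd
  have hm2 : (2 : ℝ) ≤ m := by exact_mod_cast h.hm
  have hx0 : 1 ≤ x := le_trans (one_le_pow₀ (by linarith)) hx1
  have hxp : 0 < x := by linarith
  have ht1 : 1 ≤ t := hs.trans hst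
  set a₀ := t * (d - 1) / d with ha₀
  set P : ℕ → Prop := fun n : ℕ => Q n with hPdef
  have hG0 : 0 < G := by linarith
  have hlow' : ∀ a, a₀ - (R + s) ≤ a → ∀ τ, τ ≤ t →
      (m : ℝ) ^ (a₀ - (R + s)) ≤ (m : ℝ) ^ a / (d : ℝ) ^ τ * x := by
    intro a ha τ hτ
    calc (m : ℝ) ^ (a₀ - (R + s)) = (m : ℝ) ^ (a₀ - (R + s)) / (d : ℝ) ^ t * (d : ℝ) ^ t := by
          field_simp
      _ ≤ (m : ℝ) ^ a / (d : ℝ) ^ τ * x := by
          gcongr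
          · linarith
          · linarith
  set B₁ : Set ℕ := {n | Stay d m r C (t - s) s n} with hB₁
  set B₂ : Set ℕ := {n | (d : ℝ) * R ≤ |(d : ℝ) * nz d m r t n - t * ((d : ℝ) - 1)|} with hB₂
  have hsub : Dset P x ((m : ℝ) ^ a₀ / (d : ℝ) ^ t) ⊆
      (⋃ i ∈ (Finset.Icc (a₀ - (R + s)) (a₀ + (R + s))) ×ˢ (Finset.Icc (t - s) t),
        Near P ((m : ℝ) ^ i.1 / (d : ℝ) ^ i.2) G x) ∪
      ({y : ℝ | x ≤ y ∧ y ≤ 2 * x ∧ ⌊y⌋₊ ∈ B₁} ∪ {y : ℝ | x ≤ y ∧ y ≤ 2 * x ∧ ⌊y⌋₊ ∈ B₂}) := by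
    rintro y ⟨h1, h2, h3⟩
    by_contra hcon
    rw [Set.mem_union, Set.mem_union, not_or, not_or] at hcon
    obtain ⟨g1, g2, g3⟩ := hcon
    rw [Set.mem_iUnion₂] at g1
    push Not at g1
    have g3' : |(d : ℝ) * nz d m r t ((⌊y⌋₊ : ℕ) : ℤ) - t * ((d : ℝ) - 1)| < d * R := by
      by_contra hc
      push Not at hc
      exact g3 ⟨h1, h2, hc⟩
    rw [abs_lt] at g3'
    have hdiv1 : d * a₀ ≤ t * (d - 1) := Nat.mul_div_le _ _
    have hdiv2 : t * (d - 1) < d * a₀ + d := by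
      have := Nat.lt_mul_div_succ (t * (d - 1)) (by omega : 0 < d)
      rw [mul_add, mul_one] at this
      exact this
    have hcast : ((t * (d - 1) : ℕ) : ℝ) = t * ((d : ℝ) - 1) := by
      rw [Nat.cast_mul, Nat.cast_sub (by omega)]; simp
    have hdiv1' : (d : ℝ) * a₀ ≤ t * ((d : ℝ) - 1) := by rw [← hcast]; exact_mod_cast hdiv1
    have hdiv2' : (t : ℝ) * ((d : ℝ) - 1) < d * a₀ + d := by rw [← hcast]; exact_mod_cast hdiv2
    apply h3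
    apply transfer h hQ (C := C) (s := s) (R := R) hx0 hs hst hG hG' hC hR hκ ?_ h1 ?_ ?_ ?_ ?_
    · refine hlow.trans (hlow' _ le_rfl t le_rfl)
    · intro a h4 h5 τ h6 h7 k hk hkG
      apply g1 (a, τ)
      · rw [Finset.mem_product, Finset.mem_Icc, Finset.mem_Icc]
        exact ⟨⟨h4, h5⟩, ⟨h6, h7⟩⟩
      · exact ⟨h1, h2, k, hk, hkG⟩
    · intro hst'
      exact g2 ⟨h1, h2, hst'⟩
    · have h4 : (d : ℝ) * a₀ < d * (nz d m r t ((⌊y⌋₊ : ℕ) : ℤ) + R) := by linarith [g3'.1]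
      have h5 : (a₀ : ℝ) < nz d m r t ((⌊y⌋₊ : ℕ) : ℤ) + R := lt_of_mul_lt_mul_left h4 (by linarith)
      have h6 : a₀ < nz d m r t ((⌊y⌋₊ : ℕ) : ℤ) + R := by exact_mod_cast h5
      exact h6.le
    · have h4 : (d : ℝ) * nz d m r t ((⌊y⌋₊ : ℕ) : ℤ) < d * (a₀ + R + 1) := by linarith [g3'.2]
      have h5 : (nz d m r t ((⌊y⌋₊ : ℕ) : ℤ) : ℝ) < a₀ + R + 1 := lt_of_mul_lt_mul_left h4 (by linarith)
      have h6 : nz d m r t ((⌊y⌋₊ : ℕ) : ℤ) < a₀ + R + 1 := by exact_mod_cast h5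
      omega
  have b1 : volume {y : ℝ | x ≤ y ∧ y ≤ 2 * x ∧ ⌊y⌋₊ ∈ B₁} ≤ ENNReal.ofReal (((d : ℝ) + 1) *
      (KK d r p / (d - cst d m p) / C ^ p * (c' / d) ^ s) * x) := by
    apply vol_blocks' B₁ d t x _ (by omega) hx1 hx2
    intro c
    have h1 := card_stay h hp0 hp1 hρ hC0 hc' (t - s) s c
    rw [Nat.sub_add_cancel hst] at h1
    exact h1
  have b2 : volume {y : ℝ | x ≤ y ∧ y ≤ 2 * x ∧ ⌊y⌋₊ ∈ B₂} ≤ ENNReal.ofReal (((d : ℝ) + 1) *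
      (2 * Real.exp (-((R : ℝ) ^ 2 / t))) * x) := by
    apply vol_blocks' B₂ d t x _ (by omega) hx1 hx2
    intro c
    exact card_nz h ht1 (Nat.cast_nonneg R) hRt c
  have b3 : volume (⋃ i ∈ (Finset.Icc (a₀ - (R + s)) (a₀ + (R + s))) ×ˢ (Finset.Icc (t - s) t),
        Near P ((m : ℝ) ^ i.1 / (d : ℝ) ^ i.2) G x) ≤
      ENNReal.ofReal (6 * G * ((2 * (R + s) + 1) * (s + 1)) * η * x) := by
    calc volume (⋃ i ∈ (Finset.Icc (a₀ - (R + s)) (a₀ + (R + s))) ×ˢ (Finset.Icc (t - s) t),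
          Near P ((m : ℝ) ^ i.1 / (d : ℝ) ^ i.2) G x)
        ≤ ∑ i ∈ (Finset.Icc (a₀ - (R + s)) (a₀ + (R + s))) ×ˢ (Finset.Icc (t - s) t),
          volume (Near P ((m : ℝ) ^ i.1 / (d : ℝ) ^ i.2) G x) := measure_biUnion_finset_le _ _
      _ ≤ ∑ i ∈ (Finset.Icc (a₀ - (R + s)) (a₀ + (R + s))) ×ˢ (Finset.Icc (t - s) t),
          ENNReal.ofReal (6 * G * η * x) := by
          apply Finset.sum_le_sum
          intro i hi
          rw [Finset.mem_product, Finset.mem_Icc, Finset.mem_Icc] at hi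
          have g := hlow' i.1 hi.1.1 i.2 hi.2.2
          exact vol_Near' (by positivity) hG0.le hη hcb (by linarith) (hN.trans g)
      _ = ENNReal.ofReal (6 * G * ((2 * (R + s) + 1) * (s + 1)) * η * x) := by
          rw [Finset.sum_const, Finset.card_product, Nat.card_Icc, Nat.card_Icc, nsmul_eq_mul]
          have e1 : a₀ + (R + s) + 1 - (a₀ - (R + s)) = 2 * (R + s) + 1 := by omega
          have e2 : t + 1 - (t - s) = s + 1 := by omega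
          rw [e1, e2, ← ENNReal.ofReal_natCast, ← ENNReal.ofReal_mul (by positivity)]
          congr 1
          push_cast
          ring
  have hCp : 0 < C ^ p := Real.rpow_pos_of_pos hC0 _
  have hK := KK_nonneg d r p
  have hc0 : 0 < c' := by
    have h1 := cst_pos (m := m) h.hd p
    have h2 : 0 ≤ KK d r p / C ^ p := by positivity
    linarith
  have hA : 0 ≤ KK d r p / (d - cst d m p) := div_nonneg hK (by linarith)
  calc volume (Dset P x ((m : ℝ) ^ a₀ / (d : ℝ) ^ t))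
      ≤ volume ((⋃ i ∈ (Finset.Icc (a₀ - (R + s)) (a₀ + (R + s))) ×ˢ (Finset.Icc (t - s) t),
        Near P ((m : ℝ) ^ i.1 / (d : ℝ) ^ i.2) G x) ∪
      ({y : ℝ | x ≤ y ∧ y ≤ 2 * x ∧ ⌊y⌋₊ ∈ B₁} ∪ {y : ℝ | x ≤ y ∧ y ≤ 2 * x ∧ ⌊y⌋₊ ∈ B₂})) :=
        measure_mono hsub
    _ ≤ _ + (_ + _) := (measure_union_le _ _).trans (add_le_add le_rfl (measure_union_le _ _))
    _ ≤ ENNReal.ofReal (6 * G * ((2 * (R + s) + 1) * (s + 1)) * η * x) +
        (ENNReal.ofReal (((d : ℝ) + 1) * (KK d r p / (d - cst d m p) / C ^ p * (c' / d) ^ s) * x) +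
          ENNReal.ofReal (((d : ℝ) + 1) * (2 * Real.exp (-((R : ℝ) ^ 2 / t))) * x)) :=
        add_le_add b3 (add_le_add b1 b2)
    _ = _ := by
        rw [← ENNReal.ofReal_add (by positivity) (by positivity),
          ← ENNReal.ofReal_add (by positivity) (by positivity)]
        congr 1; ring

end Pool.Agent.H620.Gen
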