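import Pool.Agent.H620.Gen.Param

/-! The boundary of an invariant set of density strictly between `0` and `1` is not thin. -/

set_option autoImplicit false

namespace Pool.Agent.H620.Gen

open Finset MeasureTheory Filter Topology
open Pool.Agent.H620.Bdry (W Bd cb Dset D)

variable {d m : ℕ} {r : ℤ → ℤ}

/-- One stage in terms of `log x`. -/
theorem stage_x (h : Adm d m r) (hcon : m ^ (d - 1) < d ^ d) {Q : ℤ → Prop}
    (hQ : ∀ x, Q x ↔ Q (T d m r x)) {A K : ℝ} (hA : 1 < A) (hK : 0 ≤ K) {N₁ : ℕ}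
    (hcb : ∀ N : ℕ, N₁ ≤ N → (cb (fun n : ℕ => Q n) N : ℝ) ≤
      K * (N / (√(Real.log N) * Real.log (Real.log N) ^ A))) :
    ∃ A₂ L₁ θ θ' c : ℝ, 0 < A₂ ∧ 10 ≤ L₁ ∧ 0 < c ∧ 0 < θ ∧ θ < 1 ∧ 0 < θ' ∧
      ∀ x : ℝ, 0 < x → L₁ ≤ Real.log x → ∃ κ : ℝ, 0 < κ ∧
      θ' * Real.log x ≤ Real.log (κ * x) ∧ Real.log (κ * x) ≤ θ * Real.log x ∧
      volume (Dset (fun n : ℕ => Q n) x κ) ≤
        ENNReal.ofReal (A₂ * Real.log (Real.log x) ^ (-(1 + c)) * x) := by
  have hdn := h.hd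
  have hmn := h.hm
  have hd2 : (2 : ℝ) ≤ d := by exact_mod_cast hdn
  have hm2 : (2 : ℝ) ≤ m := by exact_mod_cast hmn
  have hD := log_contraction h hcon
  obtain ⟨c, A₁, hc, hA₁, hst⟩ := stage_param h hcon hQ hA hK hcb
  obtain ⟨t₀, ht₀⟩ := eventually_atTop.1 hst
  set lm := Real.log m with hlm
  set ld := Real.log d with hld
  set D₀ := d * ld - ((d : ℝ) - 1) * lm with hD₀
  have hlm0 : 0.5 < lm := by
    have h1 : Real.log 2 ≤ lm := Real.log_le_log (by norm_num) hm2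
    linarith [Real.log_two_gt_d9]
  have hld0 : 0.5 < ld := by
    have h1 : Real.log 2 ≤ ld := Real.log_le_log (by norm_num) hd2
    linarith [Real.log_two_gt_d9]
  have hldp : 0 < ld := by linarith
  have hlmp : 0 < lm := by linarith
  have hDd : D₀ / d ≤ ld := by
    rw [div_le_iff₀ (by positivity), hD₀]
    have : 0 ≤ ((d : ℝ) - 1) * lm := mul_nonneg (by linarith) hlmp.le
    linarith
  have hDd0 : 0 < D₀ / d := by positivity
  set θ := 1 - D₀ / d / (2 * ld) with hθ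
  have hθ1 : θ < 1 := by
    rw [hθ]
    have : 0 < D₀ / d / (2 * ld) := by positivity
    linarith
  have hθ0 : 0 < θ := by
    have : D₀ / d / (2 * ld) ≤ 1 / 2 := by
      rw [div_le_div_iff₀ (by positivity) (by norm_num)]
      linarith
    rw [hθ]; linarith
  set θ' := 1 / (16 * ld) with hθ'
  have hθ'0 : 0 < θ' := by positivity
  refine ⟨A₁ * 2 ^ (1 + c), (t₀ + 2 * ld + 20) * (ld + 1), θ, θ', c, by positivity, ?_, hc, hθ0, hθ1, hθ'0,
    fun x hx0 hx => ?_⟩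
  · have : (0 : ℝ) ≤ t₀ := Nat.cast_nonneg _
    nlinarith
  have ht₀0 : (0 : ℝ) ≤ t₀ := Nat.cast_nonneg _
  have hx20 : 20 ≤ Real.log x := by
    refine le_trans ?_ hx
    nlinarith
  set t := Nat.log d ⌊x⌋₊ with ht
  have hxbig : (21 : ℝ) ≤ x := by
    have := Real.add_one_le_exp (Real.log x)
    rw [Real.exp_log hx0] at this
    linarith
  have hfl : ⌊x⌋₊ ≠ 0 := by
    have : 21 ≤ ⌊x⌋₊ := Nat.le_floor (by exact_mod_cast hxbig)
    omega
  have hx1 : (d : ℝ) ^ t ≤ x := by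
    have h1 : d ^ t ≤ ⌊x⌋₊ := Nat.pow_log_le_self d hfl
    have h2 : ((d ^ t : ℕ) : ℝ) ≤ x := (Nat.cast_le.2 h1).trans (Nat.floor_le hx0.le)
    exact_mod_cast h2
  have hx2 : x < (d : ℝ) ^ (t + 1) := by
    have h1 : ⌊x⌋₊ < d ^ (t + 1) := Nat.lt_pow_succ_log_self (by omega) _
    have h2 : (⌊x⌋₊ : ℝ) + 1 ≤ ((d ^ (t + 1) : ℕ) : ℝ) := by exact_mod_cast h1
    have h3 := Nat.lt_floor_add_one x
    push_cast at h2
    linarith
  have hlx1 : t * ld ≤ Real.log x := by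
    rw [hld, ← Real.log_pow]
    exact Real.log_le_log (by positivity) hx1
  have hlx2 : Real.log x ≤ (t + 1) * ld := by
    have : Real.log x ≤ Real.log ((d : ℝ) ^ (t + 1)) := Real.log_le_log hx0 hx2.le
    rw [Real.log_pow] at this
    push_cast at this
    exact this
  have htr : (t₀ : ℝ) + 2 * ld + 19 ≤ t := by
    have h1 : (t₀ + 2 * ld + 20) * (ld + 1) ≤ (t + 1) * ld := hx.trans hlx2
    by_contra hcon'
    push Not at hcon'
    have h2 : (t + 1) * ld ≤ (t₀ + 2 * ld + 20) * ld := by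
      apply mul_le_mul_of_nonneg_right _ hldp.le
      linarith
    nlinarith
  have htt₀ : t₀ ≤ t := by
    have : (t₀ : ℝ) ≤ t := by linarith
    exact_mod_cast this
  have ht0 : (19 : ℝ) ≤ t := by linarith
  have hvol := ht₀ t htt₀ x hx1 hx2
  set a₀ := t * (d - 1) / d with ha₀
  have hcast : ((t * (d - 1) : ℕ) : ℝ) = t * ((d : ℝ) - 1) := by
    rw [Nat.cast_mul, Nat.cast_sub (by omega)]; simp
  have hdiv1 : (d : ℝ) * a₀ ≤ t * ((d : ℝ) - 1) := by
    rw [← hcast]; exact_mod_cast Nat.mul_div_le (t * (d - 1)) d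
  have hdiv2 : (t : ℝ) * ((d : ℝ) - 1) < d * (a₀ + 1) := by
    rw [← hcast]; exact_mod_cast Nat.lt_mul_div_succ (t * (d - 1)) (by omega : 0 < d)
  have ha₀l : (t : ℝ) / 2 - 1 ≤ a₀ := by
    have h1 : (d : ℝ) * (t / 2) ≤ t * ((d : ℝ) - 1) := by
      have g1 : 0 ≤ (t : ℝ) * ((d : ℝ) / 2 - 1) := mul_nonneg (by linarith) (by linarith)
      have g2 : (t : ℝ) * ((d : ℝ) / 2 - 1) = t * ((d : ℝ) - 1) - d * (t / 2) := by ring
      linarith
    have h2 : (d : ℝ) * (t / 2) < d * (a₀ + 1) := by linarith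
    have h3 := lt_of_mul_lt_mul_left h2 (by linarith)
    linarith
  have e1 : Real.log ((m : ℝ) ^ a₀ / (d : ℝ) ^ t * x) = (a₀ : ℝ) * lm - t * ld + Real.log x := by
    rw [Real.log_mul (by positivity) hx0.ne', Real.log_div (by positivity) (by positivity), Real.log_pow,
      Real.log_pow]
  refine ⟨(m : ℝ) ^ a₀ / (d : ℝ) ^ t, by positivity, ?_, ?_, ?_⟩
  · rw [e1]
    have h1 : θ' * Real.log x ≤ (t + 1) / 16 := by
      calc θ' * Real.log x ≤ θ' * ((t + 1) * ld) := by gcongr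
        _ = (t + 1) / 16 := by rw [hθ']; field_simp
    have h2 : ((t : ℝ) / 2 - 1) * 0.5 ≤ a₀ * lm := by
      apply mul_le_mul ha₀l hlm0.le (by norm_num) (Nat.cast_nonneg _)
    linarith
  · rw [e1]
    have h2 : (a₀ : ℝ) ≤ t * ((d : ℝ) - 1) / d := by rw [le_div_iff₀ (by positivity)]; linarith
    have h3 : (a₀ : ℝ) * lm ≤ t * ((d : ℝ) - 1) / d * lm := by gcongr
    have h4 : t * ((d : ℝ) - 1) / d * lm = t * ld - D₀ / d * t := by
      rw [hD₀]; field_simp; ring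
    have h5 : Real.log x / ld - 1 ≤ t := by
      rw [sub_le_iff_le_add, div_le_iff₀ hldp]
      exact hlx2
    have h6 : D₀ / d * (Real.log x / ld - 1) ≤ D₀ / d * t := mul_le_mul_of_nonneg_left h5 hDd0.le
    have h7 : θ * Real.log x = Real.log x - D₀ / d * (Real.log x / ld) + D₀ / d * (Real.log x / ld) / 2 := by
      rw [hθ]; field_simp; ring
    have h8 : 2 ≤ Real.log x / ld := by
      rw [le_div_iff₀ hldp]
      have : (2 : ℝ) * ld ≤ t * ld := by gcongr; linarith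
      linarith
    have h9 : D₀ / d * 2 ≤ D₀ / d * (Real.log x / ld) := mul_le_mul_of_nonneg_left h8 hDd0.le
    rw [h7]
    have h10 : D₀ / d * (Real.log x / ld - 1) = D₀ / d * (Real.log x / ld) - D₀ / d := by ring
    linarith
  · refine hvol.trans (ENNReal.ofReal_le_ofReal ?_)
    apply mul_le_mul_of_nonneg_right _ hx0.le
    have hlx0 : 0 < Real.log x := by linarith
    have hll0 : 0 < Real.log (Real.log x) := Real.log_pos (by linarith)
    have hlt0 : 0 < Real.log t := Real.log_pos (by linarith)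
    have hll : Real.log (Real.log x) ≤ 2 * Real.log t := by
      have h1 : Real.log x ≤ (t : ℝ) ^ 2 := by
        refine hlx2.trans ?_
        nlinarith
      have h2 : Real.log (Real.log x) ≤ Real.log ((t : ℝ) ^ 2) := Real.log_le_log hlx0 h1
      rw [Real.log_pow] at h2
      exact_mod_cast h2
    have h3 : Real.log t ^ (-(1 + c)) ≤ (Real.log (Real.log x) / 2) ^ (-(1 + c)) := by
      apply Real.rpow_le_rpow_of_nonpos (by positivity) (by linarith) (by linarith)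
    have h4 : (Real.log (Real.log x) / 2) ^ (-(1 + c)) = 2 ^ (1 + c) * Real.log (Real.log x) ^ (-(1 + c)) := by
      rw [Real.div_rpow hll0.le (by norm_num), Real.rpow_neg (by norm_num : (0 : ℝ) ≤ 2) (1 + c)]
      field_simp
    calc A₁ * Real.log t ^ (-(1 + c)) ≤ A₁ * (2 ^ (1 + c) * Real.log (Real.log x) ^ (-(1 + c))) := by
          rw [← h4]; gcongr
      _ = _ := by ring

/-- **The boundary is not thin.** -/
theorem not_thin (h : Adm d m r) (hcon : m ^ (d - 1) < d ^ d) {Q : ℤ → Prop}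
    (hQ : ∀ x, Q x ↔ Q (T d m r x)) {l : ℝ} (hl0 : 0 < l) (hl1 : l < 1)
    (hl : Tendsto (fun N : ℕ => (D (fun n : ℕ => Q n) N : ℝ) / N) atTop (𝓝 l)) {A : ℝ} (hA : 1 < A) (K : ℝ)
    (hcb : ∀ᶠ N : ℕ in atTop, (cb (fun n : ℕ => Q n) N : ℝ) ≤
      K * (N / (√(Real.log N) * Real.log (Real.log N) ^ A))) : False := by
  obtain ⟨N₁, hN₁⟩ := eventually_atTop.1 hcb
  have hcb' : ∀ N : ℕ, max N₁ 16 ≤ N → (cb (fun n : ℕ => Q n) N : ℝ) ≤
      max K 0 * (N / (√(Real.log N) * Real.log (Real.log N) ^ A)) := by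
    intro N hN
    refine (hN₁ N ((le_max_left _ _).trans hN)).trans ?_
    apply mul_le_mul_of_nonneg_right (le_max_left _ _)
    have h16 : (16 : ℝ) ≤ N := by exact_mod_cast (le_max_right _ _).trans hN
    have hlog : 1 ≤ Real.log N := by
      rw [Real.le_log_iff_exp_le (by linarith)]
      have := Real.exp_one_lt_d9
      linarith
    have hll : 0 ≤ Real.log (Real.log N) := Real.log_nonneg hlog
    positivity
  obtain ⟨A₂, L₁, θ, θ', c, hA₂, hL₁, hc, hθ0, hθ1, hθ', hst⟩ := stage_x h hcon hQ hA (le_max_right K 0) hcb'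
  exact contraG hl0 hl1 hl (fun ε hε L₂ => multiLog hA₂ hL₁ hc hθ0 hθ1 hθ' hst ε hε L₂)

end Pool.Agent.H620.Gen
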